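import Pool.Agent.Helper59.DG3.Room
import Pool.Agent.Helper40.DG2.LayoutCrs

/-!
# Threads: crossings in the layout of a grid are perpendicular
-/

set_option autoImplicit false

namespace Pool.Agent.Helper59.DG3

open Pool.Agent.Helper18.RAC Pool.Agent.Helper58.DG3 Complex
open Pool.Agent.Helper58.DG3.LV (hU_long hU_short)
open Pool.Agent.Helper40.DG2 (Sh Fct fct_ax fct_yp fct_xu fct_xp fct_up fct_pd fct_bd fct_pp
  fct_pa fct_pb fct_qa fct_qb fct_cc fct_uu fct_uq fct_ud fct_qd fct_da fct_db)
open Pool.Agent.Helper40.DG (comb_lt comb_lt' comb_gt comb_gt' floor_of floor_nat cu cv cu_not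
  cv_not seg_coord apex_eq dotp_cross)

/-- shape of a code -/
def shG (π : Par) : GE → Sh3
  | .yp _ j => .fr (.yp j)
  | .xu _ c => .fr (.xu c)
  | .xp _ => .fr .xp
  | .up _ c => if c < 3 ∨ c + 1 = π.M then .fr (.up c) else .us c
  | .pd _ c => .fr (.pd c)
  | .dd _ c => .fr (.bd c)
  | .pp _ j => .fr (.pp j)
  | .pc _ j false => .fr (.pa j)
  | .pc _ j true => .fr (.pb j)
  | .pc' _ j false => .fr (.qa j)
  | .pc' _ j true => .fr (.qb j)
  | .cc _ j => .fr (.cc j)
  | .uu => .fr .uu
  | .uq _ true => .fr .uq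
  | .uq _ false => .fr .ud
  | .qq => .fr .qd
  | .dr _ false => .fr .da
  | .dr _ true => .fr .db
  | .uw _ c => .uw c
  | .nl _ x x' y => .nl x x' y
  | .dg x y => .dg ((x : ℤ), (y : ℤ))
  | .ts k x y => .ts k ((x : ℤ), (y : ℤ))
  | .tt k x y t => if t % 2 = 0 then .tv k (π.pp k x y (t / 2)) else .th k (π.qq k x y (t / 2))
  | .te k x y => .te k (π.pp k x y π.l)

/-- side of a code -/
def sgG : GE → Bool
  | .yp σ _ => σ
  | .xu σ _ => σ
  | .xp σ => σ
  | .up σ _ => σ
  | .pd σ _ => σ
  | .dd σ _ => !σ
  | .pp σ _ => σ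
  | .pc σ _ _ => σ
  | .pc' σ _ _ => σ
  | .cc σ _ => σ
  | .uu => false
  | .uq σ _ => σ
  | .qq => false
  | .dr σ _ => σ
  | .uw σ _ => !σ
  | .nl σ _ _ _ => σ
  | .dg _ _ => false
  | .ts _ _ _ => false
  | .tt _ _ _ t => decide (t % 2 = 1)
  | .te _ _ _ => false

def shF (π : Par) : GF → Sh3
  | .ns => .fr .ax
  | .ew => .fr .ax
  | .g c => shG π c

def sgF : GF → Bool
  | .ns => false
  | .ew => true
  | .g c => sgG c

/-- links and last edges -/
def GF.tl : GF → Prop
  | .g (.tt _ _ _ _) => True
  | .g (.te _ _ _) => True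
  | _ => False

/-- shapes of links and last edges -/
def Sh3.tl : Sh3 → Prop
  | .tv _ _ => True
  | .th _ _ => True
  | .te _ _ => True
  | _ => False

theorem tl_iff (π : Par) (k : GF) : (shF π k).tl ↔ GF.tl k := by
  cases k with
  | ns => exact Iff.rfl
  | ew => exact Iff.rfl
  | g c =>
    cases c with
    | pc σ j ε => cases ε <;> exact Iff.rfl
    | pc' σ j ε => cases ε <;> exact Iff.rfl
    | uq σ ε => cases ε <;> exact Iff.rfl
    | dr σ ε => cases ε <;> exact Iff.rfl
    | up σ c =>
      simp only [shF, shG]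
      split_ifs <;> exact Iff.rfl
    | tt k x y t =>
      simp only [shF, shG]
      split_ifs <;> exact Iff.rfl
    | _ => exact Iff.rfl

/-- the code of a shape and a side -/
def invS : Sh → Bool → GF
  | .ax, false => .ns
  | .ax, true => .ew
  | .yp j, σ => .g (.yp σ j)
  | .xu c, σ => .g (.xu σ c)
  | .xp, σ => .g (.xp σ)
  | .up c, σ => .g (.up σ c)
  | .pd c, σ => .g (.pd σ c)
  | .bd c, σ => .g (.dd (!σ) c)
  | .pp j, σ => .g (.pp σ j)
  | .pa j, σ => .g (.pc σ j false)
  | .pb j, σ => .g (.pc σ j true)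
  | .qa j, σ => .g (.pc' σ j false)
  | .qb j, σ => .g (.pc' σ j true)
  | .cc j, σ => .g (.cc σ j)
  | .uu, _ => .g .uu
  | .uq, σ => .g (.uq σ true)
  | .ud, σ => .g (.uq σ false)
  | .qd, _ => .g .qq
  | .da, σ => .g (.dr σ false)
  | .db, σ => .g (.dr σ true)
  | .ul _ _, _ => .ns
  | .lk _ _, _ => .ns

def invF : Sh3 → Bool → GF
  | .fr s, σ => invS s σ
  | .us c, σ => .g (.up σ c)
  | .uw c, σ => .g (.uw (!σ) c)
  | .nl x x' y, σ => .g (.nl σ x x' y)
  | .dg p, _ => .g (.dg p.1.toNat p.2.toNat)
  | .ts k p, _ => .g (.ts k p.1.toNat p.2.toNat)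
  | _, _ => .ns

theorem invF_eq (π : Par) (k : GF) (h : ¬ GF.tl k) : invF (shF π k) (sgF k) = k := by
  cases k with
  | ns => rfl
  | ew => rfl
  | g c =>
    cases c with
    | pc σ j ε => cases ε <;> rfl
    | pc' σ j ε => cases ε <;> rfl
    | uq σ ε => cases ε <;> rfl
    | dr σ ε => cases ε <;> rfl
    | dd σ c => cases σ <;> rfl
    | uw σ c => cases σ <;> rfl
    | up σ c =>
      simp only [shF, shG]
      split_ifs <;> rfl
    | tt k x y t => exact absurd trivial h
    | te k x y => exact absurd trivial h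
    | _ => rfl

theorem sh_even {π : Par} {k x y m : ℕ} : shF π (.g (.tt k x y (2 * m))) =
    .tv k (π.pp k x y m) := by
  simp only [shF, shG]
  rw [if_pos (by omega), show 2 * m / 2 = m by omega]

theorem sh_odd {π : Par} {k x y m : ℕ} : shF π (.g (.tt k x y (2 * m + 1))) =
    .th k (π.qq k x y m) := by
  simp only [shF, shG]
  rw [if_neg (by omega), show (2 * m + 1) / 2 = m by omega]

theorem sg_even {k x y m : ℕ} : sgF (.g (.tt k x y (2 * m))) = false := by
  simp only [sgF, sgG]
  exact decide_eq_false (by omega)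

theorem sg_odd {k x y m : ℕ} : sgF (.g (.tt k x y (2 * m + 1))) = true := by
  simp only [sgF, sgG]
  exact decide_eq_true (by omega)

theorem ext_tl {π : Par} {c c' : GE} (hk : c.valid π) (hk' : c'.valid π) (h : GF.tl (.g c))
    (h' : GF.tl (.g c')) (e : shF π (.g c) = shF π (.g c')) : GF.g c = GF.g c' := by
  cases c with
  | tt k x y t =>
    obtain ⟨s, ht⟩ : π.St k x y ∧ t ≤ 2 * π.l := hk
    cases c' with
    | tt k' x' y' t' =>
      obtain ⟨s', ht'⟩ : π.St k' x' y' ∧ t' ≤ 2 * π.l := hk'
      rcases Nat.even_or_odd' t with ⟨m, rfl | rfl⟩ <;>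
        rcases Nat.even_or_odd' t' with ⟨m', rfl | rfl⟩
      · rw [sh_even, sh_even] at e
        injection e with e1 e2
        subst e1
        obtain ⟨rfl, rfl, rfl⟩ := pp_inj s s' (by omega) (by omega) e2
        rfl
      · rw [sh_even, sh_odd] at e
        injection e
      · rw [sh_odd, sh_even] at e
        injection e
      · rw [sh_odd, sh_odd] at e
        injection e with e1 e2
        subst e1
        obtain ⟨rfl, rfl, rfl⟩ := qq_inj s s' (by omega) (by omega) e2
        rfl
    | te k' x' y' =>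
      rcases Nat.even_or_odd' t with ⟨m, rfl | rfl⟩
      · rw [sh_even] at e
        simp only [shF, shG] at e
        injection e
      · rw [sh_odd] at e
        simp only [shF, shG] at e
        injection e
    | _ => exact absurd h' id
  | te k x y =>
    have s : π.St k x y := hk
    cases c' with
    | tt k' x' y' t' =>
      rcases Nat.even_or_odd' t' with ⟨m, rfl | rfl⟩
      · rw [sh_even] at e
        simp only [shF, shG] at e
        injection e
      · rw [sh_odd] at e
        simp only [shF, shG] at e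
        injection e
    | te k' x' y' =>
      have s' : π.St k' x' y' := hk'
      simp only [shF, shG] at e
      injection e with e1 e2
      subst e1
      obtain ⟨rfl, rfl, -⟩ := pp_inj s s' le_rfl le_rfl e2
      rfl
    | _ => exact absurd h' id
  | _ => exact absurd h id

theorem ext_code {π : Par} {k k' : GF} (hk : k.valid π) (hk' : k'.valid π)
    (h1 : shF π k = shF π k') (h2 : sgF k = sgF k') : k = k' := by
  by_cases h : GF.tl k
  · have h' : GF.tl k' := by
      rw [← tl_iff π, ← h1, tl_iff]
      exact h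
    cases k with
    | ns => exact absurd h id
    | ew => exact absurd h id
    | g c =>
      cases k' with
      | ns => exact absurd h' id
      | ew => exact absurd h' id
      | g c' => exact ext_tl hk hk' h h' h1
  · have h' : ¬ GF.tl k' := by
      rw [← tl_iff π, ← h1, tl_iff]
      exact h
    rw [← invF_eq π k h, h1, h2, invF_eq π k' h']

theorem side_ok (π : Par) (k : GF) : (shF π k).side (sgF k) := by
  cases k with
  | ns => exact fun h => absurd h id
  | ew => exact fun h => absurd h id
  | g c =>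
    cases c with
    | pc σ j ε => cases ε <;> exact fun h => absurd h id
    | pc' σ j ε => cases ε <;> exact fun h => absurd h id
    | uq σ ε => cases ε <;> exact fun h => absurd h id
    | dr σ ε => cases ε <;> exact fun h => absurd h id
    | up σ c =>
      simp only [shF, shG]
      split_ifs
      · exact fun h => absurd h id
      · trivial
    | uu => exact fun _ => rfl
    | qq => exact fun _ => rfl
    | uw σ c => trivial
    | nl σ x x' y => trivial
    | dg x y => rfl
    | ts k x y => rfl
    | te k x y => rfl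
    | tt k x y t =>
      rcases Nat.even_or_odd' t with ⟨m, rfl | rfl⟩
      · rw [sh_even, sg_even]; rfl
      · rw [sh_odd, sg_odd]; rfl
    | _ => exact fun h => absurd h id

section facts

variable {π : Par} {p q u v : ℝ}

theorem fct_us {σ : Bool} {c : ℕ} (hp : 0 < p) (hq : 0 < q) (hpq : p + q = 1) (h3 : 3 ≤ c)
    (hc : c + 2 ≤ π.M) (hu : u = p * (2 * c + 1) + q * (2 * c + 1)) (hv : v = p * 4 + q * (-1)) :
    Fct3 π σ (.us c) u v := by
  have hc' : (c : ℝ) + 2 ≤ π.M := by exact_mod_cast hc
  have h3' : (3 : ℝ) ≤ c := by exact_mod_cast h3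
  have hu' : u = 2 * c + 1 := by rw [hu, ← add_mul, hpq, one_mul]
  have h := floor_nat (u := u) (m := 2 * c + 1) (by rw [hu']; push_cast; ring)
  refine ⟨h3, hc, by rw [h.1]; push_cast; ring, h.2, by linarith, by linarith, ?_, ?_⟩
  · rw [hv]; exact comb_gt hp hq hpq (by norm_num) le_rfl
  · rw [hv]; exact comb_lt' hp hq hpq le_rfl (by norm_num)

theorem fct_uw {σ : Bool} {c : ℕ} {v0 : ℝ} (hp : 0 < p) (hq : 0 < q) (hpq : p + q = 1)
    (h3 : 3 ≤ c) (hc : c + 2 ≤ π.M) (hu : u = p * 4 + q * 4)
    (hv0 : (c = 3 ∧ v0 = 2) ∨ v0 = 2 * (c : ℝ) - 1)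
    (hv : v = p * v0 + q * (2 * c + 1)) : Fct3 π σ (.uw c) u v := by
  have hc' : (c : ℝ) + 2 ≤ π.M := by exact_mod_cast hc
  have h3' : (3 : ℝ) ≤ c := by exact_mod_cast h3
  have hu' : u = 4 := by rw [hu, ← add_mul, hpq, one_mul]
  have h := floor_nat (u := u) (m := 4) (by rw [hu']; norm_num)
  have h0 : 2 ≤ v0 ∧ v0 < 2 * (c : ℝ) + 1 := by
    rcases hv0 with ⟨-, e⟩ | e <;> rw [e] <;> constructor <;> linarith
  have h1 : v < 2 * (c : ℝ) + 1 := by
    rw [hv]; exact comb_lt hp hq hpq h0.2 le_rfl
  refine ⟨h3, hc, by rw [h.1]; norm_num, hu', ?_, h1, ?_, by linarith⟩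
  · rw [hv]; exact comb_gt' hp hq hpq h0.1 (by linarith)
  · rcases hv0 with ⟨e, -⟩ | e
    · exact Or.inl e
    · right
      rw [hv]; exact comb_gt' hp hq hpq e.ge (by linarith)

end facts

section main

variable {π : Par} {n s e w : ℝ}

theorem uw_cu {σ : Bool} {c : ℕ} (h3 : 3 ≤ c) (hc : c + 2 ≤ π.M) :
    cu (!σ) (lay π (.U σ c)) = 4 ∧ cv (!σ) (lay π (.U σ c)) = 2 * c + 1 := by
  have h := hU_short h3 hc
  cases σ <;> simp [cu, cv, lay, h]

theorem uw_cu' {σ : Bool} {c : ℕ} (h3 : 3 ≤ c) (hc : c + 2 ≤ π.M) :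
    cu (!σ) (lay π (if c = 3 then .D' σ 0 1 else .U σ (c - 1))) = 4 ∧
    ((c = 3 ∧ cv (!σ) (lay π (if c = 3 then .D' σ 0 1 else .U σ (c - 1))) = 2) ∨
      cv (!σ) (lay π (if c = 3 then .D' σ 0 1 else .U σ (c - 1))) = 2 * (c : ℝ) - 1) := by
  split_ifs with h
  · refine ⟨?_, Or.inl ⟨h, ?_⟩⟩ <;> cases σ <;> simp [GN.D', cu, cv, lay] <;> norm_num
  · obtain ⟨h1, h2⟩ := uw_cu (π := π) (σ := σ) (c := c - 1) (by omega) (by omega)
    refine ⟨h1, Or.inr ?_⟩
    rw [h2, Nat.cast_sub (by omega)]
    push_cast
    ring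

theorem seg_fct (hM : 8 ≤ π.M) (hn : 2 * π.M + 3 < n) (hs : 2 * π.M + 3 < s)
    (he : 2 * π.M + 3 < e) (hw : 2 * π.M + 3 < w) (k : GF) (hk : k.valid π) {z : ℂ}
    (hz : z ∈ openSegment ℝ (layX π n s e w (k.ends π).1) (layX π n s e w (k.ends π).2)) :
    Fct3 π (sgF k) (shF π k) (cu (sgF k) z) (cv (sgF k) z) := by
  obtain ⟨p, q, hp, hq, hpq, hu, hv⟩ := seg_coord hz (sgF k)
  have hc1 : ((2 * π.M - 1 : ℕ) : ℝ) = 2 * π.M - 1 := by
    rw [Nat.cast_sub (by omega)]; push_cast; ring
  have hc2 : ((π.M - 1 : ℕ) : ℝ) = π.M - 1 := by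
    rw [Nat.cast_sub (by omega)]; push_cast; ring
  have hUM : hU π.M (π.M - 1) = 2 * π.M + 2 := hU_long (Or.inr (by omega))
  have hU0 : hU π.M 0 = 2 * π.M + 2 := hU_long (Or.inl (by omega))
  have hU1 : hU π.M 1 = 2 * π.M + 2 := hU_long (Or.inl (by omega))
  cases k with
  | ns =>
    refine ⟨fct_ax ?_, trivial⟩
    rw [hu]
    simp [sgF, cu, GF.ends, layX]
  | ew =>
    refine ⟨fct_ax ?_, trivial⟩
    rw [hu]
    simp [sgF, cu, GF.ends, layX]
  | g c =>
    simp only [GF.valid] at hk
    simp only [GF.ends] at hu hv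
    cases c with
    | yp σ j =>
      refine ⟨?_, trivial⟩
      cases σ
      · exact fct_yp hp hq hpq hs (by refine hu.trans ?_; simp [cu, sgF, sgG, GE.ends, layX, lay])
          (by refine hv.trans ?_; simp [cv, sgF, sgG, GE.ends, layX, lay])
      · exact fct_yp hp hq hpq hw (by refine hu.trans ?_; simp [cu, sgF, sgG, GE.ends, layX, lay])
          (by refine hv.trans ?_; simp [cv, sgF, sgG, GE.ends, layX, lay])
    | xu σ c =>
      refine ⟨?_, trivial⟩
      have hU := hU_long hk.2
      cases σ
      · exact fct_xu hp hq hpq hn hk.1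
          (by refine hu.trans ?_; simp [cu, sgF, sgG, GE.ends, layX, lay])
          (by refine hv.trans ?_; simp [cv, sgF, sgG, GE.ends, layX, lay, hU])
      · exact fct_xu hp hq hpq he hk.1
          (by refine hu.trans ?_; simp [cu, sgF, sgG, GE.ends, layX, lay])
          (by refine hv.trans ?_; simp [cv, sgF, sgG, GE.ends, layX, lay, hU])
    | xp σ =>
      refine ⟨?_, trivial⟩
      cases σ
      · exact fct_xp hp hq hpq he
          (by refine hu.trans ?_; simp [cu, sgF, sgG, GE.ends, layX, lay, hc1])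
          (by refine hv.trans ?_; simp [cv, sgF, sgG, GE.ends, layX, lay])
      · exact fct_xp hp hq hpq hn
          (by refine hu.trans ?_; simp [cu, sgF, sgG, GE.ends, layX, lay, hc1])
          (by refine hv.trans ?_; simp [cv, sgF, sgG, GE.ends, layX, lay])
    | up σ c =>
      have hk' : c < π.M := hk
      simp only [shF, shG]
      split_ifs with hl
      · have hU := hU_long hl
        refine ⟨?_, hl⟩
        cases σ <;>
        exact fct_up hp hq hpq hk' (by refine hu.trans ?_; simp [cu, sgF, sgG, GE.ends, layX, lay])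
            (by refine hv.trans ?_; simp [cv, sgF, sgG, GE.ends, layX, lay, hU])
      · have hU := hU_short (M := π.M) (c := c) (by omega) (by omega)
        cases σ <;>
        exact fct_us hp hq hpq (by omega) (by omega)
            (by refine hu.trans ?_; simp [cu, sgF, sgG, GE.ends, layX, lay])
            (by refine hv.trans ?_; simp [cv, sgF, sgG, GE.ends, layX, lay, hU])
    | pd σ c =>
      refine ⟨?_, trivial⟩
      cases σ <;>
      exact fct_pd hp hq hpq hk
          (by refine hu.trans ?_; simp [-mul_eq_mul_left_iff, cu, sgF, sgG, GE.ends, GN.D', layX, lay]; ring)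
          (by refine hv.trans ?_; simp [cv, sgF, sgG, GE.ends, GN.D', layX, lay])
    | dd σ c =>
      refine ⟨?_, trivial⟩
      cases σ <;>
      exact fct_bd hp hq hpq hk
          (by refine hu.trans ?_; simp [cu, sgF, sgG, GE.ends, GN.D', layX, lay])
          (by refine hv.trans ?_; simp [-mul_eq_mul_left_iff, cv, sgF, sgG, GE.ends, GN.D', layX, lay]; ring)
    | pp σ j =>
      refine ⟨?_, trivial⟩
      cases σ <;>
      exact fct_pp hp hq hpq hk
          (by refine hu.trans ?_; simp [-mul_eq_mul_left_iff, cu, sgF, sgG, GE.ends, layX, lay]; ring)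
          (by refine hv.trans ?_; simp [cv, sgF, sgG, GE.ends, layX, lay])
    | pc σ j ε =>
      cases ε
      · refine ⟨?_, trivial⟩
        cases σ <;>
        exact fct_pa hp hq hpq hk (by refine hu.trans ?_; simp [cu, sgF, sgG, GE.ends, layX, lay])
          (by refine hv.trans ?_; simp [cv, sgF, sgG, GE.ends, layX, lay])
      · refine ⟨?_, trivial⟩
        cases σ <;>
        exact fct_pb hp hq hpq hk (by refine hu.trans ?_; simp [cu, sgF, sgG, GE.ends, layX, lay])
          (by refine hv.trans ?_; simp [cv, sgF, sgG, GE.ends, layX, lay])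
    | pc' σ j ε =>
      cases ε
      · refine ⟨?_, trivial⟩
        cases σ <;>
        exact fct_qa hp hq hpq hk
          (by refine hu.trans ?_; simp [-mul_eq_mul_left_iff, cu, sgF, sgG, GE.ends, layX, lay]; ring)
          (by refine hv.trans ?_; simp [cv, sgF, sgG, GE.ends, layX, lay])
      · refine ⟨?_, trivial⟩
        cases σ <;>
        exact fct_qb hp hq hpq hk
          (by refine hu.trans ?_; simp [-mul_eq_mul_left_iff, cu, sgF, sgG, GE.ends, layX, lay]; ring)
          (by refine hv.trans ?_; simp [cv, sgF, sgG, GE.ends, layX, lay])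
    | cc σ j =>
      refine ⟨?_, trivial⟩
      cases σ <;>
      exact fct_cc hp hq hpq hk (by refine hu.trans ?_; simp [cu, sgF, sgG, GE.ends, layX, lay])
          (by refine hv.trans ?_; simp [cv, sgF, sgG, GE.ends, layX, lay])
    | uu =>
      refine ⟨?_, trivial⟩
      exact fct_uu hp hq hpq
          (by refine hu.trans ?_; simp [-mul_eq_mul_left_iff, cu, sgF, sgG, GE.ends, layX, lay, hc2, hUM]; ring)
          (by refine hv.trans ?_; simp [-mul_eq_mul_left_iff, cv, sgF, sgG, GE.ends, layX, lay, hc2, hUM]; ring)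
    | uq σ ε =>
      cases ε
      · refine ⟨?_, trivial⟩
        cases σ <;>
        exact fct_ud hp hq hpq
            (by refine hu.trans ?_; simp [-mul_eq_mul_left_iff, cu, sgF, sgG, GE.ends, layX, lay, hc2, hUM]; ring)
            (by refine hv.trans ?_; simp [-mul_eq_mul_left_iff, cv, sgF, sgG, GE.ends, layX, lay, hc2, hUM])
      · refine ⟨?_, trivial⟩
        cases σ <;>
        exact fct_uq hp hq hpq
            (by refine hu.trans ?_; simp [-mul_eq_mul_left_iff, cu, sgF, sgG, GE.ends, layX, lay, hc2, hUM]; ring)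
            (by refine hv.trans ?_; simp [cv, sgF, sgG, GE.ends, layX, lay, hc2, hUM])
    | qq =>
      refine ⟨fct_qd (p := q) (q := p) hq hp (by linarith) ?_ ?_, trivial⟩
      · refine hu.trans ?_
        simp [-mul_eq_mul_left_iff, cu, sgF, sgG, GE.ends, layX, lay]
        ring
      · refine hv.trans ?_
        simp [-mul_eq_mul_left_iff, cv, sgF, sgG, GE.ends, layX, lay]
        ring
    | dr σ ε =>
      cases ε
      · refine ⟨?_, trivial⟩
        cases σ <;>
        exact fct_da hp hq hpq
            (by refine hu.trans ?_; simp [-mul_eq_mul_left_iff, cu, sgF, sgG, GE.ends, GN.D', layX, lay, hc2, hU0, hU1]; ring)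
            (by refine hv.trans ?_; simp [cv, sgF, sgG, GE.ends, GN.D', layX, lay])
      · refine ⟨?_, trivial⟩
        cases σ <;>
        exact fct_db hp hq hpq
            (by refine hu.trans ?_; simp [-mul_eq_mul_left_iff, cu, sgF, sgG, GE.ends, GN.D', layX, lay, hc2, hU0, hU1]; ring)
            (by refine hv.trans ?_; simp [cv, sgF, sgG, GE.ends, GN.D', layX, lay]; norm_num)
    | uw σ c =>
      obtain ⟨h1, h2⟩ := uw_cu (π := π) (σ := σ) hk.1 hk.2
      obtain ⟨h3, h4⟩ := uw_cu' (π := π) (σ := σ) hk.1 hk.2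
      refine fct_uw hp hq hpq hk.1 hk.2 ?_ h4 ?_
      · refine hu.trans ?_
        simp only [sgF, sgG, GE.ends, layX]
        rw [h1, h3]
      · refine hv.trans ?_
        simp only [sgF, sgG, GE.ends, layX]
        rw [h2]
    | nl σ x x' y => exact nl_link hk hz
    | dg x y =>
      obtain ⟨h1, h2, h3, h4⟩ := hk
      have d := dg_link (π := π) h4 hz
      exact ⟨dg_reg h1 h2 h3 d, d⟩
    | ts k x y =>
      have hk' : π.St k x y := hk
      have d := ts_link hk' hz
      exact ⟨ts_reg (room_xy hk') d, d⟩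
    | te k x y =>
      have hk' : π.St k x y := hk
      have d := te_link hk' hz
      exact ⟨te_reg (room_pp hk' le_rfl) d, d⟩
    | tt k x y t =>
      obtain ⟨hk', ht⟩ : π.St k x y ∧ t ≤ 2 * π.l := hk
      rcases Nat.even_or_odd' t with ⟨m, rfl | rfl⟩
      · have hm : m ≤ π.l := by omega
        have d := tv_link hk' hm hz
        rw [sh_even, sg_even]
        exact ⟨tv_reg (room_pp hk' hm) d, d⟩
      · have hm : m < π.l := by omega
        have d := th_link hk' hm hz
        rw [sh_odd, sg_odd]
        exact ⟨(th_reg (room_qq hk' hm.le) d).swap, d⟩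

theorem vert_eq (k : GF) (hv : k.valid π) (hk : (shF π k).vert) :
    cu (sgF k) (layX π n s e w (k.ends π).1) = cu (sgF k) (layX π n s e w (k.ends π).2) := by
  cases k with
  | ns => simp [sgF, cu, GF.ends, layX]
  | ew => simp [sgF, cu, GF.ends, layX]
  | g c =>
    cases c with
    | up σ c => cases σ <;> simp [sgF, sgG, cu, GF.ends, GE.ends, layX, lay]
    | pd σ c => cases σ <;> simp [sgF, sgG, cu, GF.ends, GE.ends, GN.D', layX, lay] <;> ring
    | dd σ c => cases σ <;> simp [sgF, sgG, cu, GF.ends, GE.ends, GN.D', layX, lay]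
    | uw σ c =>
      simp only [sgF, sgG, GF.ends, GE.ends, layX]
      rw [(uw_cu hv.1 hv.2).1, (uw_cu' hv.1 hv.2).1]
    | nl σ x x' y =>
      simp only [sgF, sgG, GF.ends, GE.ends, layX]
      have e1 : cu σ (lay π (.F' σ x' y)) = 2 * (y : ℝ) + 4 := by cases σ <;> rfl
      have e3 : cu σ (lay π (.lo σ x y)) = 2 * (y : ℝ) + 4 := by
        unfold GN.lo
        split_ifs with h
        · cases σ <;> simp [GN.D', lay, cu] <;> ring
        · cases σ <;> rfl
      rw [e1, e3]
    | tt k x y t =>
      obtain ⟨hk', ht⟩ : π.St k x y ∧ t ≤ 2 * π.l := hv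
      rcases Nat.even_or_odd' t with ⟨m, rfl | rfl⟩
      · rw [sg_even]
        exact re_even.trans re_odd.symm
      · have hm : m < π.l := by omega
        rw [sg_odd]
        exact (vm_odd hk' hm).2.2.2.2.2.2.2.trans (vm_even hk' hm).2.2.2.2.2.2.2.symm
    | pc σ j ε => cases ε <;> exact absurd hk id
    | pc' σ j ε => cases ε <;> exact absurd hk id
    | uq σ ε => cases ε <;> exact absurd hk id
    | dr σ ε => cases ε <;> exact absurd hk id
    | _ => exact absurd hk id

end main

end Pool.Agent.Helper59.DG3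

namespace Pool.Agent.Helper58.DG3

open Pool.Agent.Helper18.RAC Pool.Agent.Helper59.DG3 Complex
open Pool.Agent.Helper40.DG (cu cv cu_not cv_not apex_eq dotp_cross)
open Pool.Agent.Helper40.DG2 (Sh)
open Pool.Agent.Helper58.DG3.LV (hU_long hU_short)

theorem layout_crs {π : Par} (hM : 8 ≤ π.M) {n s e w : ℝ} (hn : 2 * π.M + 3 < n)
    (hs : 2 * π.M + 3 < s) (he : 2 * π.M + 3 < e) (hw : 2 * π.M + 3 < w) :
    ∀ k k' : GF, k.valid π → k'.valid π → k ≠ k' →
    ∀ z, z ∈ openSegment ℝ (layX π n s e w (k.ends π).1) (layX π n s e w (k.ends π).2) →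
      z ∈ openSegment ℝ (layX π n s e w (k'.ends π).1) (layX π n s e w (k'.ends π).2) →
      dotp (layX π n s e w (k.ends π).1) (layX π n s e w (k.ends π).2)
        (layX π n s e w (k'.ends π).1) (layX π n s e w (k'.ends π).2) = 0 := by
  intro k k' hk hk' hne z hz hz'
  have f1 := seg_fct hM hn hs he hw k hk hz
  have f2 := seg_fct hM hn hs he hw k' hk' hz'
  have s1 := side_ok π k
  have s2 := side_ok π k'
  have hM0 : (0 : ℝ) ≤ π.M := by positivity
  by_cases hσ : sgF k = sgF k'
  · rw [← hσ] at f2 s2
    rcases same3 hM f1 f2 s1 s2 with h | ⟨S, S', hS, hS', h⟩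
    · exact absurd (ext_code hk hk' h hσ) hne
    · exfalso
      have t1 : ¬ Pool.Agent.Helper59.DG3.GF.tl k := by
        rw [← tl_iff π, hS]; exact id
      have t2 : ¬ Pool.Agent.Helper59.DG3.GF.tl k' := by
        rw [← tl_iff π, hS']; exact id
      have e1 := invF_eq π k t1
      have e2 := invF_eq π k' t2
      rw [hS] at e1
      rw [hS', ← hσ] at e2
      cases S with
      | yp j =>
        cases S' with
        | yp j' =>
          generalize sgF k = σ at e1 e2
          change GF.g (.yp σ j) = k at e1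
          change GF.g (.yp σ j') = k' at e2
          subst e1 e2
          refine hne ?_
          have h5 : (j : ℝ) = j' := by
            cases σ
            · have := apex_eq (σ := false) hz hz' (by simp [cv, GF.ends, GE.ends, layX, lay])
                (by simp [cv, GF.ends, GE.ends, layX, lay]; linarith)
              simpa [cu, GF.ends, GE.ends, layX, lay] using this
            · have := apex_eq (σ := true) hz hz' (by simp [cv, GF.ends, GE.ends, layX, lay])
                (by simp [cv, GF.ends, GE.ends, layX, lay]; linarith)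
              simpa [cu, GF.ends, GE.ends, layX, lay] using this
          rw [Nat.cast_injective h5]
        | _ => exact absurd h id
      | xu j =>
        cases S' with
        | xu j' =>
          generalize sgF k = σ at e1 e2
          change GF.g (.xu σ j) = k at e1
          change GF.g (.xu σ j') = k' at e2
          subst e1 e2
          refine hne ?_
          have hU1 : hU π.M j = 2 * π.M + 2 := hU_long hk.2
          have hU2 : hU π.M j' = 2 * π.M + 2 := hU_long hk'.2
          have h5 : (j : ℝ) = j' := by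
            cases σ
            · have := apex_eq (σ := false) hz hz'
                (by simp [cv, GF.ends, GE.ends, layX, lay, hU1, hU2])
                (by simp [cv, GF.ends, GE.ends, layX, lay, hU1]; linarith)
              simpa [cu, GF.ends, GE.ends, layX, lay] using this
            · have := apex_eq (σ := true) hz hz'
                (by simp [cv, GF.ends, GE.ends, layX, lay, hU1, hU2])
                (by simp [cv, GF.ends, GE.ends, layX, lay, hU1]; linarith)
              simpa [cu, GF.ends, GE.ends, layX, lay] using this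
          rw [Nat.cast_injective h5]
        | _ => exact absurd h id
      | _ => cases S' <;> exact absurd h id
  · have hσ' : sgF k' = !(sgF k) := by
      cases h1 : sgF k <;> cases h2 : sgF k' <;> simp_all
    rw [hσ'] at s2
    rw [hσ', cu_not, cv_not] at f2
    obtain ⟨h1, h2⟩ := cross3 hM f1 f2 s1 s2
    have g1 := vert_eq (π := π) (n := n) (s := s) (e := e) (w := w) k hk h1
    have g2 := vert_eq (π := π) (n := n) (s := s) (e := e) (w := w) k' hk' h2
    rw [hσ', cu_not, cu_not] at g2
    exact dotp_cross g1 g2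

end Pool.Agent.Helper58.DG3
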