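import Mathlib

/-!
# Threads: the places of the points of the edges and of the vertices in the net

`x`, `y` are the coordinates of a point of the plane, `p`, `q`, `o` lattice points; the cell of the
grid with the lower left corner `(i, j)` is `[2 i + 4, 2 i + 6] × [2 j + 4, 2 j + 6]`, and `ξ k` is
the offset of the links of the class `k`.
-/

set_option autoImplicit false

namespace Pool.Agent.Helper59.DG3

/-- the offsets of the classes -/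
noncomputable def xi (k : ℕ) : ℝ := 2 - 2 / ((k : ℝ) + 2)

theorem xi_ge (k : ℕ) : 1 ≤ xi k := by
  unfold xi
  have h : (0 : ℝ) ≤ k := Nat.cast_nonneg k
  have : 2 / ((k : ℝ) + 2) ≤ 1 := by
    rw [div_le_one (by linarith)]
    linarith
  linarith

theorem xi_lt (k : ℕ) : xi k < 2 := by
  unfold xi
  have h : (0 : ℝ) ≤ k := Nat.cast_nonneg k
  have : 0 < 2 / ((k : ℝ) + 2) := by positivity
  linarith

theorem xi_inj {k k' : ℕ} (h : xi k = xi k') : k = k' := by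
  unfold xi at h
  have h0 : (0 : ℝ) ≤ k := Nat.cast_nonneg k
  have h1 : (0 : ℝ) ≤ k' := Nat.cast_nonneg k'
  have h2 : 2 / ((k : ℝ) + 2) = 2 / ((k' : ℝ) + 2) := by linarith
  rw [div_eq_div_iff (by linarith) (by linarith)] at h2
  have h3 : (k : ℝ) = k' := by linarith
  exact_mod_cast h3

/-- what is used about the lattice -/
structure Lat (R : ℤ) (L : ℤ × ℤ → Prop) : Prop where
  hR : 0 < R
  col : ∀ p q : ℤ × ℤ, L p → L q → p.1 = q.1 → R ∣ p.2 - q.2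
  row : ∀ p q : ℤ × ℤ, L p → L q → p.2 = q.2 → R ∣ p.1 - q.1

/-- the diagonal of the obstacle `p` -/
def Dg (L : ℤ × ℤ → Prop) (p : ℤ × ℤ) (x y : ℝ) : Prop :=
  L p ∧ 2 * (p.1 : ℝ) + 4 < x ∧ x < 2 * (p.1 : ℝ) + 6 ∧ y - x = 2 * (p.2 : ℝ) - 2 * (p.1 : ℝ)

/-- a vertical link of the class `k` in the strip of `p` -/
def Tv (R : ℤ) (L : ℤ × ℤ → Prop) (k : ℕ) (p : ℤ × ℤ) (x y : ℝ) : Prop :=
  L p ∧ x = 2 * (p.1 : ℝ) + 4 + xi k ∧ 2 * (p.2 : ℝ) + 6 - (2 - xi k) ^ 2 / 2 < y ∧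
    y < 2 * ((p.2 : ℝ) + R) + 4 + (xi k) ^ 2 / 2

/-- a horizontal link of the class `k` in the strip of `q` -/
def Th (R : ℤ) (L : ℤ × ℤ → Prop) (k : ℕ) (q : ℤ × ℤ) (x y : ℝ) : Prop :=
  L q ∧ y = 2 * (q.2 : ℝ) + 4 + xi k ∧ 2 * (q.1 : ℝ) + 6 < x ∧ x < 2 * ((q.1 : ℝ) + R) + 4

/-- the first edge of a thread of the class `k`: from `F (o + (1, 1))` to the first corner in the
lower right half of the cell of the obstacle `o` -/
def Ts (L : ℤ × ℤ → Prop) (k : ℕ) (o : ℤ × ℤ) (x y : ℝ) : Prop :=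
  L o ∧ 2 * (o.1 : ℝ) + 4 + xi k < x ∧ x < 2 * (o.1 : ℝ) + 6 ∧
    2 * (o.2 : ℝ) + 6 - y = (2 * (o.1 : ℝ) + 6 - x) * (2 + xi k) / 2

/-- the last edge of a thread of the class `k`: from the last corner in the upper left half of the
cell of the obstacle `p` to `F p` -/
def Te (L : ℤ × ℤ → Prop) (k : ℕ) (p : ℤ × ℤ) (x y : ℝ) : Prop :=
  L p ∧ 2 * (p.1 : ℝ) + 4 < x ∧ x < 2 * (p.1 : ℝ) + 4 + xi k ∧
    y - (2 * (p.2 : ℝ) + 4) = (x - (2 * (p.1 : ℝ) + 4)) * (4 - xi k) / 2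

/-- the first corner -/
def V0 (L : ℤ × ℤ → Prop) (k : ℕ) (o : ℤ × ℤ) (x y : ℝ) : Prop :=
  L o ∧ x = 2 * (o.1 : ℝ) + 4 + xi k ∧ y = 2 * (o.2 : ℝ) + 4 + (xi k) ^ 2 / 2

/-- the last corner -/
def Ve (L : ℤ × ℤ → Prop) (k : ℕ) (p : ℤ × ℤ) (x y : ℝ) : Prop :=
  L p ∧ x = 2 * (p.1 : ℝ) + 4 + xi k ∧ y = 2 * (p.2 : ℝ) + 6 - (2 - xi k) ^ 2 / 2

/-- the other corners -/
def Vm (R : ℤ) (L : ℤ × ℤ → Prop) (k : ℕ) (p q : ℤ × ℤ) (x y : ℝ) : Prop :=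
  L p ∧ L q ∧ p.2 < q.2 ∧ q.2 < p.2 + R ∧ q.1 < p.1 ∧ p.1 < q.1 + R ∧
    x = 2 * (p.1 : ℝ) + 4 + xi k ∧ y = 2 * (q.2 : ℝ) + 4 + xi k

/-- the vertices of the net -/
def Vf (p : ℤ × ℤ) (x y : ℝ) : Prop := x = 2 * (p.1 : ℝ) + 4 ∧ y = 2 * (p.2 : ℝ) + 4

end Pool.Agent.Helper59.DG3
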