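import Pool.Agent.Helper58.DG3.Base
import Pool.Agent.Helper82.DG.Lay
import Pool.Agent.Helper59.DG3.PairDefs

/-!
# Threads: the layout of a grid
-/

set_option autoImplicit false

namespace Pool.Agent.Helper58.DG3

open Pool.Agent.Helper18.RAC Complex
open Pool.Agent.Helper82.DG (NE SE NW SW XCross)
open Pool.Agent.Helper59.DG3 (xi)

/-- height of the upper ends of the lines -/
noncomputable def hU (M c : ℕ) : ℝ := if c < 3 ∨ c + 1 = M then 2 * M + 2 else 4

/-- positions of the vertices of the grid; the crossing point of the diagonals is the origin -/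
noncomputable def lay (π : Par) : GN → ℂ
  | .P false j => ⟨j + 1, -1⟩
  | .P true j => ⟨-1, j + 1⟩
  | .U false c => ⟨2 * c + 1, hU π.M c⟩
  | .U true c => ⟨hU π.M c, 2 * c + 1⟩
  | .C false j ε => ⟨j + 3 / 2, cond ε (-3 / 4) (-1 / 2)⟩
  | .C true j ε => ⟨cond ε (-3 / 4) (-1 / 2), j + 3 / 2⟩
  | .Q false => ⟨2 * π.M, 2 * π.M⟩
  | .Q true => ⟨2 * π.M + 1 / 4, 2 * π.M + 1 / 4⟩
  | .D c r => ⟨2 * c + 2, 2 * r + 2⟩
  | .F x y => ⟨2 * x + 4, 2 * y + 4⟩
  | .T k x y t =>
    ⟨2 * ((π.pp k x y (t / 2)).1 : ℝ) + 4 + xi k,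
      if t = 0 then 2 * (y : ℝ) + 4 + (xi k) ^ 2 / 2
      else if t = 2 * π.l + 1 then 2 * ((π.pp k x y π.l).2 : ℝ) + 6 - (2 - xi k) ^ 2 / 2
      else 2 * ((π.qq k x y ((t - 1) / 2)).2 : ℝ) + 4 + xi k⟩

/-- positions of the corners and of the vertices of the grid -/
noncomputable def layX (π : Par) (n s e w : ℝ) : GX → ℂ
  | .X false => ⟨0, n⟩
  | .X true => ⟨e, 0⟩
  | .Y false => ⟨0, -s⟩
  | .Y true => ⟨-w, 0⟩
  | .v x => lay π x

def GX.ok (π : Par) : GX → Prop
  | .v x => x.ok π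
  | _ => True

/-- codes of the two diagonals and of the edges of the grid -/
inductive GF
  | ns
  | ew
  | g (c : GE)

def GF.valid (π : Par) : GF → Prop
  | .g c => c.valid π
  | _ => True

def GF.ends (π : Par) : GF → GX × GX
  | .ns => (.X false, .Y false)
  | .ew => (.X true, .Y true)
  | .g c => c.ends π

end Pool.Agent.Helper58.DG3
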