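import Pool.Agent.Helper18.RAC.Defs

/-!
# A maximal straight-line RAC graph is connected, hence has at least `n - 1` edges
-/

set_option autoImplicit false

namespace Pool.Agent.Helper59.DG3

open Pool.Agent.Helper18.RAC SimpleGraph

/-- Two parts of a drawing without edges between them can be moved apart and joined by an edge. -/
theorem exists_join {V : Type*} [Finite V] {G : SimpleGraph V} {f : V → ℂ} (hf : IsRAC G f)
    (P : V → Prop) (hP : ∀ a b, G.Adj a b → (P a ↔ P b)) (h1 : ∃ a, P a) (h2 : ∃ b, ¬ P b) :
    ∃ x y : V, P x ∧ ¬ P y ∧ ∃ g : V → ℂ, IsRAC (G ⊔ SimpleGraph.edge x y) g := by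
  classical
  obtain ⟨x, hx, hxm⟩ := Set.exists_max_image {a | P a} (fun a => (f a).re) (Set.toFinite _) h1
  obtain ⟨y, hy, hym⟩ := Set.exists_min_image {b | ¬ P b} (fun b => (f b).re) (Set.toFinite _) h2
  have hx' : P x := hx
  have hy' : ¬ P y := hy
  refine ⟨x, y, hx', hy', ?_⟩
  set T : ℝ := (f x).re - (f y).re + 1 with hT
  set g : V → ℂ := fun v => if P v then f v else f v + (T : ℂ) with hg
  have gP : ∀ v, P v → g v = f v := fun v h => by simp [hg, h]
  have gN : ∀ v, ¬ P v → g v = f v + (T : ℂ) := fun v h => by simp [hg, h]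
  have reP : ∀ v, P v → (g v).re ≤ (f x).re := fun v h => by rw [gP v h]; exact hxm v h
  have reN : ∀ v, ¬ P v → (f x).re + 1 ≤ (g v).re := fun v h => by
    rw [gN v h]
    have := hym v h
    simp only [Complex.add_re, Complex.ofReal_re]
    linarith
  have gx : g x = f x := gP x hx'
  have gxr : (g x).re = (f x).re := by rw [gx]
  have gyr : (g y).re = (f x).re + 1 := by
    rw [gN y hy']; simp only [Complex.add_re, Complex.ofReal_re]; linarith
  have inj : Function.Injective g := by
    intro a b hab
    by_cases ha : P a <;> by_cases hb : P b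
    · rw [gP a ha, gP b hb] at hab; exact hf.inj hab
    · have e1 := reP a ha
      have e2 := reN b hb
      rw [hab] at e1; linarith
    · have e1 := reN a ha
      have e2 := reP b hb
      rw [hab] at e1; linarith
    · rw [gN a ha, gN b hb] at hab; exact hf.inj (add_right_cancel hab)
  -- the real part on an edge
  have segP : ∀ a b z, P a → P b → z ∈ segment ℝ (g a) (g b) → z.re ≤ (f x).re := by
    intro a b z ha hb hz
    obtain ⟨t, h0, h1, h2, -⟩ := mem_segment_iff.1 hz
    rw [h2]
    have e1 := reP a ha
    have e2 := reP b hb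
    nlinarith
  have segN : ∀ a b z, ¬ P a → ¬ P b → z ∈ segment ℝ (g a) (g b) → (f x).re + 1 ≤ z.re := by
    intro a b z ha hb hz
    obtain ⟨t, h0, h1, h2, -⟩ := mem_segment_iff.1 hz
    rw [h2]
    have e1 := reN a ha
    have e2 := reN b hb
    nlinarith
  have segT : ∀ a b z, ¬ P a → ¬ P b → z ∈ segment ℝ (g a) (g b) →
      z - (T : ℂ) ∈ segment ℝ (f a) (f b) := by
    intro a b z ha hb hz
    rw [gN a ha, gN b hb] at hz
    obtain ⟨t, h0, h1, h2, h3⟩ := mem_segment_iff.1 hz
    refine mem_segment_iff.2 ⟨t, h0, h1, ?_, ?_⟩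
    · simp only [Complex.add_re, Complex.ofReal_re, Complex.sub_re] at h2 ⊢
      linarith
    · simp only [Complex.add_im, Complex.ofReal_im, Complex.sub_im] at h3 ⊢
      linarith
  have osegT : ∀ a b z, ¬ P a → ¬ P b → z ∈ openSegment ℝ (g a) (g b) →
      z - (T : ℂ) ∈ openSegment ℝ (f a) (f b) := by
    intro a b z ha hb hz
    rw [gN a ha, gN b hb] at hz
    obtain ⟨t, h0, h1, h2, h3⟩ := mem_openSegment_iff.1 hz
    refine mem_openSegment_iff.2 ⟨t, h0, h1, ?_, ?_⟩
    · simp only [Complex.add_re, Complex.ofReal_re, Complex.sub_re] at h2 ⊢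
      linarith
    · simp only [Complex.add_im, Complex.ofReal_im, Complex.sub_im] at h3 ⊢
      linarith
  -- the new edge
  have newS : ∀ z, z ∈ segment ℝ (g x) (g y) → (z.re ≤ (f x).re → z = g x) ∧
      ((f x).re + 1 ≤ z.re → z = g y) := by
    intro z hz
    obtain ⟨t, h0, h1, h2, h3⟩ := mem_segment_iff.1 hz
    rw [gxr, gyr] at h2
    constructor
    · intro h
      have ht : t = 0 := by nlinarith
      subst ht
      apply Complex.ext
      · rw [gxr]; linarith
      · linarith
    · intro h
      have ht : t = 1 := by nlinarith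
      subst ht
      apply Complex.ext
      · rw [gyr]; linarith
      · linarith
  have newO : ∀ z, z ∈ openSegment ℝ (g x) (g y) → (f x).re < z.re ∧ z.re < (f x).re + 1 := by
    intro z hz
    obtain ⟨t, h0, h1, h2, h3⟩ := mem_openSegment_iff.1 hz
    rw [gxr, gyr] at h2
    constructor <;> nlinarith
  have hvtx : ∀ u v w : V, G.Adj u v → w ≠ u → w ≠ v → g w ∉ segment ℝ (g u) (g v) := by
    intro u v w huv hwu hwv hw
    by_cases hu : P u
    · have hv : P v := (hP u v huv).1 hu
      by_cases hw' : P w
      · rw [gP u hu, gP v hv, gP w hw'] at hw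
        exact hf.vtx u v w huv hwu hwv hw
      · have e1 := segP u v _ hu hv hw
        have e2 := reN w hw'
        linarith
    · have hv : ¬ P v := fun h => hu ((hP u v huv).2 h)
      by_cases hw' : P w
      · have e1 := segN u v _ hu hv hw
        have e2 := reP w hw'
        linarith
      · have e1 := segT u v _ hu hv hw
        rw [gN w hw', add_sub_cancel_right] at e1
        exact hf.vtx u v w huv hwu hwv e1
  have hnew : ∀ w : V, w ≠ x → w ≠ y → g w ∉ segment ℝ (g x) (g y) := by
    intro w hwx hwy hw
    by_cases hw' : P w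
    · exact hwx (inj ((newS _ hw).1 (reP w hw')))
    · exact hwy (inj ((newS _ hw).2 (reN w hw')))
  have hcrs : ∀ u v a b : V, G.Adj u v → G.Adj a b → s(u, v) ≠ s(a, b) →
      ∀ z : ℂ, z ∈ openSegment ℝ (g u) (g v) → z ∈ openSegment ℝ (g a) (g b) →
      ((g v - g u) * (starRingEnd ℂ) (g b - g a)).re = 0 := by
    intro u v a b huv hab hne z hz1 hz2
    by_cases hu : P u
    · have hv : P v := (hP u v huv).1 hu
      by_cases ha : P a
      · have hb : P b := (hP a b hab).1 ha
        rw [gP u hu, gP v hv] at hz1 ⊢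
        rw [gP a ha, gP b hb] at hz2 ⊢
        exact hf.crs u v a b huv hab hne z hz1 hz2
      · have hb : ¬ P b := fun h => ha ((hP a b hab).2 h)
        have e1 := segP u v _ hu hv (openSegment_subset_segment _ _ _ hz1)
        have e2 := segN a b _ ha hb (openSegment_subset_segment _ _ _ hz2)
        linarith
    · have hv : ¬ P v := fun h => hu ((hP u v huv).2 h)
      by_cases ha : P a
      · have hb : P b := (hP a b hab).1 ha
        have e1 := segN u v _ hu hv (openSegment_subset_segment _ _ _ hz1)
        have e2 := segP a b _ ha hb (openSegment_subset_segment _ _ _ hz2)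
        linarith
      · have hb : ¬ P b := fun h => ha ((hP a b hab).2 h)
        have e1 := osegT u v _ hu hv hz1
        have e2 := osegT a b _ ha hb hz2
        have e3 := hf.crs u v a b huv hab hne _ e1 e2
        rw [gN u hu, gN v hv, gN a ha, gN b hb, add_sub_add_right_eq_sub, add_sub_add_right_eq_sub]
        exact e3
  have hno : ∀ a b z, G.Adj a b → z ∈ openSegment ℝ (g a) (g b) →
      z ∈ openSegment ℝ (g x) (g y) → False := by
    intro a b z hab hz1 hz2
    have e1 := newO z hz2
    by_cases ha : P a
    · have hb : P b := (hP a b hab).1 ha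
      have e2 := segP a b _ ha hb (openSegment_subset_segment _ _ _ hz1)
      linarith
    · have hb : ¬ P b := fun h => ha ((hP a b hab).2 h)
      have e2 := segN a b _ ha hb (openSegment_subset_segment _ _ _ hz1)
      linarith
  have hedge : ∀ a b : V, (SimpleGraph.edge x y).Adj a b → (a = x ∧ b = y) ∨ (a = y ∧ b = x) := by
    intro a b hab
    rw [SimpleGraph.edge_adj] at hab
    exact hab.1
  refine ⟨g, inj, ?_, ?_⟩
  · intro u v w huv hwu hwv
    rcases huv with huv | huv
    · exact hvtx u v w huv hwu hwv
    · rcases hedge u v huv with ⟨rfl, rfl⟩ | ⟨rfl, rfl⟩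
      · exact hnew w hwu hwv
      · rw [segment_symm]
        exact hnew w hwv hwu
  · intro u v a b huv hab hne z hz1 hz2
    rcases huv with huv | huv
    · rcases hab with hab | hab
      · exact hcrs u v a b huv hab hne z hz1 hz2
      · exfalso
        rcases hedge a b hab with ⟨rfl, rfl⟩ | ⟨rfl, rfl⟩
        · exact hno u v z huv hz1 hz2
        · rw [openSegment_symm] at hz2
          exact hno u v z huv hz1 hz2
    · rcases hab with hab | hab
      · exfalso
        rcases hedge u v huv with ⟨rfl, rfl⟩ | ⟨rfl, rfl⟩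
        · exact hno a b z hab hz2 hz1
        · rw [openSegment_symm] at hz1
          exact hno a b z hab hz2 hz1
      · exfalso
        apply hne
        rcases hedge u v huv with ⟨rfl, rfl⟩ | ⟨rfl, rfl⟩ <;>
          rcases hedge a b hab with ⟨rfl, rfl⟩ | ⟨rfl, rfl⟩
        · rfl
        · exact Sym2.eq_swap
        · exact Sym2.eq_swap
        · rfl

/-- A maximal straight-line RAC graph is connected. -/
theorem maxRAC_connected {V : Type*} [Finite V] [Nonempty V] {G : SimpleGraph V}
    (h : MaxRAC G) : G.Connected := by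
  classical
  rw [SimpleGraph.connected_iff]
  refine ⟨?_, inferInstance⟩
  intro u v
  by_contra huv
  obtain ⟨f, hf⟩ := h.1
  obtain ⟨x, y, hx, hy, g, hg⟩ := exists_join hf (fun w => G.Reachable u w)
    (fun a b hab => ⟨fun h => h.trans hab.reachable, fun h => h.trans hab.symm.reachable⟩)
    ⟨u, SimpleGraph.Reachable.refl u⟩ ⟨v, huv⟩
  have hxy : x ≠ y := by
    rintro rfl
    exact hy hx
  exact h.2 x y hxy (fun hadj => hy (hx.trans hadj.reachable)) ⟨g, hg⟩

/-- A maximal straight-line RAC graph with `n` vertices has at least `n - 1` edges. -/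
theorem maxRAC_card {V : Type*} [Finite V] [Nonempty V] {G : SimpleGraph V} (h : MaxRAC G) :
    Nat.card V ≤ G.edgeSet.ncard + 1 := by
  have h1 := (maxRAC_connected h).card_vert_le_card_edgeSet_add_one
  rwa [Nat.card_coe_set_eq] at h1

theorem maxRAC_card_fin {n : ℕ} {G : SimpleGraph (Fin n)} (h : MaxRAC G) :
    n ≤ G.edgeSet.ncard + 1 := by
  rcases Nat.eq_zero_or_pos n with hn | hn
  · omega
  · have : Nonempty (Fin n) := ⟨⟨0, hn⟩⟩
    have h1 := maxRAC_card h
    rwa [Nat.card_fin] at h1

end Pool.Agent.Helper59.DG3
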