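import Pool.Agent.Helper59.DG3.Shape
import Pool.Agent.Helper68.DG3.VtxF
import Pool.Agent.Helper40.DG.LayoutCrs

/-!
# Threads: the region of the edges and vertices of the net and of the threads
-/

set_option autoImplicit false

namespace Pool.Agent.Helper59.DG3

open Pool.Agent.Helper58.DG3 Complex
open Pool.Agent.Helper40.DG (cu cv seg_coord comb_lt comb_lt' comb_gt comb_gt' floor_nat)

variable {π : Par} {L : ℤ × ℤ → Prop} {k : ℕ} {p q : ℤ × ℤ} {x y : ℝ}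

theorem Room.real (h : Room π p) : (1 : ℝ) ≤ p.1 ∧ (1 : ℝ) ≤ p.2 ∧
    (p.1 : ℝ) + p.2 + π.R + 7 ≤ π.M := by
  obtain ⟨h1, h2, h3⟩ := h
  refine ⟨by exact_mod_cast h1, by exact_mod_cast h2, ?_⟩
  have : ((p.1 + p.2 + π.R + 7 : ℤ) : ℝ) ≤ ((π.M : ℤ) : ℝ) := by exact_mod_cast h3
  push_cast at this
  linarith

theorem R_nonneg (π : Par) : (0 : ℝ) ≤ π.R := Nat.cast_nonneg _

/-- points of the cell of `p` -/
theorem cell_reg (h : Room π p) (h1 : 2 * (p.1 : ℝ) + 4 < x ∧ x < 2 * (p.1 : ℝ) + 6)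
    (h2 : 2 * (p.2 : ℝ) + 4 < y ∧ y < 2 * (p.2 : ℝ) + 6) : Reg π.M x y := by
  obtain ⟨a1, a2, a3⟩ := h.real
  have := R_nonneg π
  refine ⟨?_, ?_, ?_, ?_, ?_⟩ <;> linarith

theorem ts_reg (h : Room π p) (h1 : Ts L k p x y) : Reg π.M x y :=
  cell_reg h (ts_u h1) (ts_v h1)

theorem te_reg (h : Room π p) (h1 : Te L k p x y) : Reg π.M x y :=
  cell_reg h (te_u h1) (te_v h1)

theorem tv_reg (h : Room π p) (h1 : Tv π.R L k p x y) : Reg π.M x y := by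
  obtain ⟨a1, a2, a3⟩ := h.real
  have := R_nonneg π
  obtain ⟨b1, b2⟩ := tv_u h1
  have c1 := xi_ge k
  have c2 := xi_lt k
  have c3 := xi_sq_lt k
  have c4 : (2 - xi k) ^ 2 ≤ 1 := by nlinarith
  obtain ⟨-, -, b3, b4⟩ := h1
  push_cast at b4
  refine ⟨?_, ?_, ?_, ?_, ?_⟩ <;> linarith

theorem th_reg (h : Room π p) (h1 : Th π.R L k p x y) : Reg π.M x y := by
  obtain ⟨a1, a2, a3⟩ := h.real
  have := R_nonneg π
  obtain ⟨b1, b2⟩ := th_v h1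
  have c1 := xi_ge k
  obtain ⟨-, b0, b3, b4⟩ := h1
  push_cast at b4
  refine ⟨?_, ?_, ?_, ?_, ?_⟩ <;> linarith

theorem dg_reg {i j : ℕ} (hi : 1 ≤ i) (hj : 1 ≤ j) (hij : i + j + 5 ≤ π.M)
    (h1 : Dg L ((i : ℤ), (j : ℤ)) x y) : Reg π.M x y := by
  have a1 : (1 : ℝ) ≤ i := by exact_mod_cast hi
  have a2 : (1 : ℝ) ≤ j := by exact_mod_cast hj
  have a3 : (i : ℝ) + j + 5 ≤ π.M := by exact_mod_cast hij
  obtain ⟨b1, b2⟩ := dg_u h1
  obtain ⟨b3, b4⟩ := dg_v h1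
  push_cast at b1 b2 b3 b4
  refine ⟨?_, ?_, ?_, ?_, ?_⟩ <;> linarith

theorem v0_u (h : V0 L k p x y) : 2 * (p.1 : ℝ) + 4 < x ∧ x < 2 * (p.1 : ℝ) + 6 := by
  have := xi_ge k
  have := xi_lt k
  obtain ⟨-, h1, -⟩ := h
  constructor <;> linarith

theorem v0_v (h : V0 L k p x y) : 2 * (p.2 : ℝ) + 4 < y ∧ y < 2 * (p.2 : ℝ) + 6 := by
  have c1 := xi_ge k
  have c2 := xi_lt k
  have c3 := xi_sq_lt k
  have c4 : 1 ≤ (xi k) ^ 2 := by nlinarith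
  obtain ⟨-, -, h1⟩ := h
  constructor <;> linarith

theorem ve_u (h : Ve L k p x y) : 2 * (p.1 : ℝ) + 4 < x ∧ x < 2 * (p.1 : ℝ) + 6 := by
  have := xi_ge k
  have := xi_lt k
  obtain ⟨-, h1, -⟩ := h
  constructor <;> linarith

theorem ve_v (h : Ve L k p x y) : 2 * (p.2 : ℝ) + 4 < y ∧ y < 2 * (p.2 : ℝ) + 6 := by
  have c1 := xi_ge k
  have c2 := xi_lt k
  have c3 : (2 - xi k) ^ 2 ≤ 1 := by nlinarith
  have c4 : 0 < (2 - xi k) ^ 2 := pow_pos (by linarith) 2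
  obtain ⟨-, -, h1⟩ := h
  constructor <;> linarith

theorem vm_u (h : Vm π.R L k p q x y) : 2 * (p.1 : ℝ) + 4 < x ∧ x < 2 * (p.1 : ℝ) + 6 := by
  have := xi_ge k
  have := xi_lt k
  obtain ⟨-, -, -, -, -, -, h1, -⟩ := h
  constructor <;> linarith

theorem vm_v (h : Vm π.R L k p q x y) : 2 * (q.2 : ℝ) + 4 < y ∧ y < 2 * (q.2 : ℝ) + 6 := by
  have := xi_ge k
  have := xi_lt k
  obtain ⟨-, -, -, -, -, -, -, h1⟩ := h
  constructor <;> linarith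

theorem vm_reg (h : Room π p) (h1 : Vm π.R L k p q x y) : Reg π.M x y := by
  obtain ⟨a1, a2, a3⟩ := h.real
  have := R_nonneg π
  obtain ⟨b1, b2⟩ := vm_u h1
  obtain ⟨b3, b4⟩ := vm_v h1
  obtain ⟨-, -, h2, h3, -, -, -, -⟩ := h1
  have h2' : (p.2 : ℝ) < q.2 := by exact_mod_cast h2
  have h3' : (q.2 : ℝ) < p.2 + π.R := by exact_mod_cast h3
  have h3'' : q.2 + 1 ≤ p.2 + π.R := h3
  have h4 : (q.2 : ℝ) + 1 ≤ p.2 + π.R := by exact_mod_cast h3''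
  refine ⟨?_, ?_, ?_, ?_, ?_⟩ <;> linarith

/-- the names of the vertices of a thread -/
theorem t_cases {l t : ℕ} (h : t ≤ 2 * l + 1) : t = 0 ∨ (∃ m, m < l ∧ t = 2 * m + 1) ∨
    (∃ m, m < l ∧ t = 2 * m + 2) ∨ t = 2 * l + 1 := by
  rcases Nat.even_or_odd' t with ⟨m, hm | hm⟩
  · rcases Nat.eq_zero_or_pos m with h0 | h0
    · exact Or.inl (by omega)
    · exact Or.inr (Or.inr (Or.inl ⟨m - 1, by omega, by omega⟩))
  · rcases Nat.lt_or_ge m l with h0 | h0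
    · exact Or.inr (Or.inl ⟨m, h0, hm⟩)
    · exact Or.inr (Or.inr (Or.inr (by omega)))

theorem t_reg {k x y t : ℕ} (h : (GN.T k x y t).ok π) :
    Reg π.M (lay π (.T k x y t)).re (lay π (.T k x y t)).im := by
  obtain ⟨h, ht⟩ : π.St k x y ∧ t ≤ 2 * π.l + 1 := h
  rcases t_cases ht with rfl | ⟨m, hm, rfl⟩ | ⟨m, hm, rfl⟩ | rfl
  · exact cell_reg (room_xy h) (v0_u (v0_zero h)) (v0_v (v0_zero h))
  · exact vm_reg (room_pp h hm.le) (vm_odd h hm)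
  · exact vm_reg (room_pp h hm) (vm_even h hm)
  · exact cell_reg (room_pp h le_rfl) (ve_u (ve_last h)) (ve_v (ve_last h))

theorem treg (π : Par) : TReg π := fun _ _ _ _ h => t_reg h

/-- points of the lines of the net -/
theorem nl_link {σ : Bool} {a b c : ℕ} (h : (GE.nl σ a b c).valid π) {z : ℂ}
    (hz : z ∈ openSegment ℝ (lay π (.lo σ a c)) (lay π (.F' σ b c))) :
    Fct3 π σ (.nl a b c) (cu σ z) (cv σ z) := by
  obtain ⟨h1, h2, h3, h4, h5, h6⟩ := h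
  obtain ⟨p, q, hp, hq, hpq, hu, hv⟩ := seg_coord hz σ
  have h1' : (1 : ℝ) ≤ c := by exact_mod_cast h1
  have h2' : (a : ℝ) + 1 ≤ b := by exact_mod_cast h2
  have h3' : (b : ℝ) + c + 3 ≤ π.M := by exact_mod_cast h3
  have h0' : (0 : ℝ) ≤ a := Nat.cast_nonneg a
  have e1 : cu σ (lay π (.F' σ b c)) = 2 * (c : ℝ) + 4 := by cases σ <;> rfl
  have e2 : cv σ (lay π (.F' σ b c)) = 2 * (b : ℝ) + 4 := by cases σ <;> rfl
  have e3 : cu σ (lay π (.lo σ a c)) = 2 * (c : ℝ) + 4 := by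
    unfold GN.lo
    split_ifs with h
    · cases σ <;> simp [GN.D', lay, cu] <;> ring
    · cases σ <;> rfl
  have e4 : (a = 0 ∧ cv σ (lay π (.lo σ a c)) = 2) ∨
      (a ≠ 0 ∧ cv σ (lay π (.lo σ a c)) = 2 * (a : ℝ) + 4) := by
    unfold GN.lo
    split_ifs with h
    · left
      refine ⟨h, ?_⟩
      cases σ <;> simp [GN.D', lay, cv]
    · right
      refine ⟨h, ?_⟩
      cases σ <;> rfl
  have hu' : cu σ z = 2 * (c : ℝ) + 4 := by rw [hu, e1, e3, ← add_mul, hpq, one_mul]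
  have hf := floor_nat (u := cu σ z) (m := 2 * c + 4) (by rw [hu']; push_cast; ring)
  have hv1 : cv σ z < 2 * (b : ℝ) + 4 := by
    rw [hv]
    refine comb_lt hp hq hpq ?_ e2.le
    rcases e4 with ⟨-, e4⟩ | ⟨-, e4⟩ <;> rw [e4] <;> linarith
  have hv2 : 2 < cv σ z := by
    rw [hv]
    refine comb_gt' hp hq hpq ?_ (by rw [e2]; linarith)
    rcases e4 with ⟨-, e4⟩ | ⟨-, e4⟩ <;> rw [e4] <;> linarith
  have hv3 : a = 0 ∨ 2 * (a : ℝ) + 4 < cv σ z := by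
    rcases e4 with ⟨e, -⟩ | ⟨-, e4⟩
    · exact Or.inl e
    · right
      rw [hv]
      exact comb_gt' hp hq hpq e4.ge (by rw [e2]; linarith)
  refine ⟨by rw [hf.1]; push_cast; ring, hf.2, by linarith, hv2, by linarith, by linarith,
    by linarith, h2, hv3, hv1, h4, h5, h6⟩

end Pool.Agent.Helper59.DG3
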