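import Pool.Agent.Helper40.DG2.Shape
import Pool.Agent.Helper59.DG3.Lay
import Pool.Agent.Helper29.DG3.Num
import Pool.Agent.Helper29.DG3.PairsEE

/-!
# Threads: shapes of the edges of a grid and the places of their points
-/

set_option autoImplicit false

namespace Pool.Agent.Helper59.DG3

open Pool.Agent.Helper58.DG3 Pool.Agent.Helper29.DG3
open Pool.Agent.Helper40.DG2 (Sh Fct)

/-- the shapes of the edges -/
inductive Sh3
  | fr (s : Sh)
  | us (c : ℕ)
  | uw (c : ℕ)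
  | nl (x x' y : ℕ)
  | dg (p : ℤ × ℤ)
  | tv (k : ℕ) (p : ℤ × ℤ)
  | th (k : ℕ) (p : ℤ × ℤ)
  | ts (k : ℕ) (p : ℤ × ℤ)
  | te (k : ℕ) (p : ℤ × ℤ)

/-- the shapes of the frame which are used -/
def fro (M : ℕ) : Sh → Prop
  | .up c => c < 3 ∨ c + 1 = M
  | .ul _ _ => False
  | .lk _ _ => False
  | _ => True

/-- the region of the net -/
def Reg (M : ℕ) (u v : ℝ) : Prop :=
  5 < u ∧ 5 < v ∧ u < 2 * M - 1 ∧ v < 2 * M - 1 ∧ u + v < 2 * M + 2

theorem Reg.swap {M : ℕ} {u v : ℝ} (h : Reg M u v) : Reg M v u :=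
  ⟨h.2.1, h.1, h.2.2.2.1, h.2.2.1, by linarith [h.2.2.2.2]⟩

/-- what is used about the points of the edge of a shape; `u`, `v` are the coordinates in this
order for `σ = false` and exchanged for `σ = true` -/
def Fct3 (π : Par) (σ : Bool) : Sh3 → ℝ → ℝ → Prop
  | .fr s, u, v => Fct π.M s u v ∧ fro π.M s
  | .us c, u, v => 3 ≤ c ∧ c + 2 ≤ π.M ∧ ⌊u⌋ = 2 * (c : ℤ) + 1 ∧ u = (⌊u⌋ : ℝ) ∧ 7 ≤ u ∧
      u ≤ 2 * π.M - 3 ∧ -1 < v ∧ v < 4
  | .uw c, u, v => 3 ≤ c ∧ c + 2 ≤ π.M ∧ ⌊u⌋ = 4 ∧ u = 4 ∧ 2 < v ∧ v < 2 * c + 1 ∧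
      (c = 3 ∨ 2 * (c : ℝ) - 1 < v) ∧ v < 2 * π.M
  | .nl x x' y, u, v => ⌊u⌋ = 2 * (y : ℤ) + 4 ∧ u = (⌊u⌋ : ℝ) ∧ 6 ≤ u ∧ 2 < v ∧
      u < 2 * π.M - 1 ∧ v < 2 * π.M - 1 ∧ u + v < 2 * π.M + 2 ∧
      (x < x' ∧ (x = 0 ∨ 2 * (x : ℝ) + 4 < v) ∧ v < 2 * (x' : ℝ) + 4 ∧ InS π.D (pt σ x' y) ∧
        (x = 0 ∨ InS π.D (pt σ x y)) ∧ ∀ z, x < z → z < x' → ¬ InS π.D (pt σ z y))
  | .dg p, u, v => Reg π.M u v ∧ Dg (InL π.D) p u v
  | .tv k p, u, v => Reg π.M u v ∧ Tv π.R (InL π.D) k p u v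
  | .th k p, u, v => Reg π.M u v ∧ Th π.R (InL π.D) k p v u
  | .ts k p, u, v => Reg π.M u v ∧ Ts (InL π.D) k p u v
  | .te k p, u, v => Reg π.M u v ∧ Te (InL π.D) k p u v

/-- the shapes of the vertical edges -/
def Sh3.vert : Sh3 → Prop
  | .fr s => s.vert
  | .us _ => True
  | .uw _ => True
  | .nl _ _ _ => True
  | .tv _ _ => True
  | .th _ _ => True
  | _ => False

/-- the sides of a shape -/
def Sh3.side (σ : Bool) : Sh3 → Prop
  | .fr s => s.sym → σ = false
  | .us _ => True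
  | .uw _ => True
  | .nl _ _ _ => True
  | .th _ _ => σ = true
  | _ => σ = false

theorem fr_reg {M : ℕ} (hM : 8 ≤ M) {s : Sh} {u v : ℝ} (h : Fct M s u v) (hf : fro M s)
    (hr : Reg M u v) : False := by
  have hM' : (8 : ℝ) ≤ M := by exact_mod_cast hM
  obtain ⟨r1, r2, r3, r4, r5⟩ := hr
  cases s with
  | up c =>
    simp only [Fct, fro] at h hf
    obtain ⟨h1, h2, h3, h4, h5, h6, h7⟩ := h
    rw [h2] at h3
    push_cast at h3
    rcases hf with hf | hf
    · have : (c : ℝ) ≤ 2 := by exact_mod_cast (by omega : c ≤ 2)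
      linarith
    · have : (c : ℝ) + 1 = M := by exact_mod_cast hf
      linarith
  | ul k m => exact hf
  | lk k m => exact hf
  | _ =>
    simp only [Fct] at h
    casesm* _ ∧ _
    linarith

theorem fr_us_same {π : Par} (hM : 8 ≤ π.M) {σ σ' : Bool} {s : Sh} {c : ℕ} {u v : ℝ}
    (h : Fct3 π σ (.fr s) u v) (h' : Fct3 π σ' (.us c) u v) : False := by
  have hM' : (8 : ℝ) ≤ π.M := by exact_mod_cast hM
  obtain ⟨h, hf⟩ := h
  obtain ⟨g1, g2, g3, g4, g5, g6, g7, g8⟩ := h'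
  cases s with
  | up c' =>
    simp only [Fct, fro] at h hf
    obtain ⟨h1, h2, h3, h4, h5, h6, h7⟩ := h
    omega
  | ul k m => exact hf
  | lk k m => exact hf
  | _ =>
    simp only [Fct] at h
    casesm* _ ∧ _
    first | omega | linarith | contradiction

theorem fr_us_cross {π : Par} (hM : 8 ≤ π.M) {σ σ' : Bool} {s : Sh} {c : ℕ} {u v : ℝ}
    (h : Fct3 π σ (.fr s) v u) (h' : Fct3 π σ' (.us c) u v) : s.vert := by
  have hM' : (8 : ℝ) ≤ π.M := by exact_mod_cast hM
  obtain ⟨h, hf⟩ := h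
  obtain ⟨g1, g2, g3, g4, g5, g6, g7, g8⟩ := h'
  cases s with
  | ul k m => exact hf.elim
  | lk k m => exact hf.elim
  | _ =>
    first
      | trivial
      | (exfalso
         simp only [Fct] at h
         casesm* _ ∧ _
         first | omega | linarith | contradiction)

theorem fr_uw_same {π : Par} (hM : 8 ≤ π.M) {σ σ' : Bool} {s : Sh} {c : ℕ} {u v : ℝ}
    (h : Fct3 π σ (.fr s) u v) (h' : Fct3 π σ' (.uw c) u v) : False := by
  have hM' : (8 : ℝ) ≤ π.M := by exact_mod_cast hM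
  obtain ⟨h, hf⟩ := h
  obtain ⟨g1, g2, g3, g4, g5, g6, g7, g8⟩ := h'
  cases s with
  | ul k m => exact hf
  | lk k m => exact hf
  | _ =>
    simp only [Fct] at h
    casesm* _ ∧ _
    first | omega | linarith | contradiction

theorem fr_uw_cross {π : Par} (hM : 8 ≤ π.M) {σ σ' : Bool} {s : Sh} {c : ℕ} {u v : ℝ}
    (h : Fct3 π σ (.fr s) v u) (h' : Fct3 π σ' (.uw c) u v) : s.vert := by
  have hM' : (8 : ℝ) ≤ π.M := by exact_mod_cast hM
  obtain ⟨h, hf⟩ := h
  obtain ⟨g1, g2, g3, g4, g5, g6, g7, g8⟩ := h'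
  cases s with
  | ul k m => exact hf.elim
  | lk k m => exact hf.elim
  | _ =>
    first
      | trivial
      | (exfalso
         simp only [Fct] at h
         casesm* _ ∧ _
         first | omega | linarith | contradiction)

theorem fr_nl_same {π : Par} (hM : 8 ≤ π.M) {σ σ' : Bool} {s : Sh} {a b c : ℕ} {u v : ℝ}
    (h : Fct3 π σ (.fr s) u v) (h' : Fct3 π σ' (.nl a b c) u v) : False := by
  have hM' : (8 : ℝ) ≤ π.M := by exact_mod_cast hM
  obtain ⟨h, hf⟩ := h
  obtain ⟨g1, g2, g3, g4, g5, g6, g7, -⟩ := h'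
  cases s with
  | ul k m => exact hf
  | lk k m => exact hf
  | _ =>
    simp only [Fct] at h
    casesm* _ ∧ _
    first | omega | linarith | contradiction

theorem fr_nl_cross {π : Par} (hM : 8 ≤ π.M) {σ σ' : Bool} {s : Sh} {a b c : ℕ} {u v : ℝ}
    (h : Fct3 π σ (.fr s) v u) (h' : Fct3 π σ' (.nl a b c) u v) : s.vert := by
  have hM' : (8 : ℝ) ≤ π.M := by exact_mod_cast hM
  obtain ⟨h, hf⟩ := h
  obtain ⟨g1, g2, g3, g4, g5, g6, g7, -⟩ := h'
  cases s with
  | ul k m => exact hf.elim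
  | lk k m => exact hf.elim
  | _ =>
    first
      | trivial
      | (exfalso
         simp only [Fct] at h
         casesm* _ ∧ _
         first | omega | linarith | contradiction)

/-- an even number and the interval between two even numbers -/
theorem even_gap {a b : ℤ} {t : ℝ} (h : t = 2 * (a : ℝ) + 4) (h1 : 2 * (b : ℝ) + 4 < t)
    (h2 : t < 2 * (b : ℝ) + 6) : False := by
  have h3 : (b : ℝ) < a := by linarith
  have h4 : (a : ℝ) < b + 1 := by linarith
  have h5 : b < a := by exact_mod_cast h3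
  have h6 : a < b + 1 := by exact_mod_cast h4
  omega

theorem nl_even {π : Par} {σ : Bool} {a b c : ℕ} {u v : ℝ} (h : Fct3 π σ (.nl a b c) u v) :
    u = 2 * ((c : ℤ) : ℝ) + 4 := by
  rw [h.2.1, h.1]
  push_cast
  ring

theorem xi_sq_lt (k : ℕ) : (xi k) ^ 2 < 4 := by
  nlinarith [xi_ge k, xi_lt k]

theorem dg_u {L : ℤ × ℤ → Prop} {p : ℤ × ℤ} {x y : ℝ} (h : Dg L p x y) :
    2 * (p.1 : ℝ) + 4 < x ∧ x < 2 * (p.1 : ℝ) + 6 := ⟨h.2.1, h.2.2.1⟩

theorem dg_v {L : ℤ × ℤ → Prop} {p : ℤ × ℤ} {x y : ℝ} (h : Dg L p x y) :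
    2 * (p.2 : ℝ) + 4 < y ∧ y < 2 * (p.2 : ℝ) + 6 := by
  obtain ⟨-, h1, h2, h3⟩ := h
  constructor <;> linarith

theorem tv_u {R : ℤ} {L : ℤ × ℤ → Prop} {k : ℕ} {p : ℤ × ℤ} {x y : ℝ} (h : Tv R L k p x y) :
    2 * (p.1 : ℝ) + 4 < x ∧ x < 2 * (p.1 : ℝ) + 6 := by
  have := xi_ge k
  have := xi_lt k
  obtain ⟨-, h1, -⟩ := h
  constructor <;> linarith

theorem th_v {R : ℤ} {L : ℤ × ℤ → Prop} {k : ℕ} {p : ℤ × ℤ} {x y : ℝ} (h : Th R L k p x y) :
    2 * (p.2 : ℝ) + 4 < y ∧ y < 2 * (p.2 : ℝ) + 6 := by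
  have := xi_ge k
  have := xi_lt k
  obtain ⟨-, h1, -⟩ := h
  constructor <;> linarith

theorem ts_u {L : ℤ × ℤ → Prop} {k : ℕ} {p : ℤ × ℤ} {x y : ℝ} (h : Ts L k p x y) :
    2 * (p.1 : ℝ) + 4 < x ∧ x < 2 * (p.1 : ℝ) + 6 := by
  have := xi_ge k
  obtain ⟨-, h1, h2, -⟩ := h
  constructor <;> linarith

theorem ts_v {L : ℤ × ℤ → Prop} {k : ℕ} {p : ℤ × ℤ} {x y : ℝ} (h : Ts L k p x y) :
    2 * (p.2 : ℝ) + 4 < y ∧ y < 2 * (p.2 : ℝ) + 6 := by
  have a1 := xi_ge k
  have a2 := xi_lt k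
  obtain ⟨-, h1, h2, h3⟩ := h
  have h4 : 0 < (2 * (p.1 : ℝ) + 6 - x) * (2 + xi k) := mul_pos (by linarith) (by linarith)
  have h5 : (2 * (p.1 : ℝ) + 6 - x) * (2 + xi k) < (2 - xi k) * (2 + xi k) :=
    mul_lt_mul_of_pos_right (by linarith) (by linarith)
  constructor <;> nlinarith

theorem te_u {L : ℤ × ℤ → Prop} {k : ℕ} {p : ℤ × ℤ} {x y : ℝ} (h : Te L k p x y) :
    2 * (p.1 : ℝ) + 4 < x ∧ x < 2 * (p.1 : ℝ) + 6 := by
  have := xi_lt k
  obtain ⟨-, h1, h2, -⟩ := h
  constructor <;> linarith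

theorem te_v {L : ℤ × ℤ → Prop} {k : ℕ} {p : ℤ × ℤ} {x y : ℝ} (h : Te L k p x y) :
    2 * (p.2 : ℝ) + 4 < y ∧ y < 2 * (p.2 : ℝ) + 6 := by
  have a1 := xi_ge k
  have a2 := xi_lt k
  obtain ⟨-, h1, h2, h3⟩ := h
  have h4 : 0 < (x - (2 * (p.1 : ℝ) + 4)) * (4 - xi k) := mul_pos (by linarith) (by linarith)
  have h5 : (x - (2 * (p.1 : ℝ) + 4)) * (4 - xi k) < xi k * (4 - xi k) :=
    mul_lt_mul_of_pos_right (by linarith) (by linarith)
  constructor <;> nlinarith

theorem us_reg {π : Par} {σ : Bool} {c : ℕ} {u v : ℝ} (h : Fct3 π σ (.us c) u v)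
    (hr : Reg π.M u v) : False := by
  obtain ⟨-, -, -, -, -, -, -, h1⟩ := h
  obtain ⟨-, h2, -⟩ := hr
  linarith

theorem uw_reg {π : Par} {σ : Bool} {c : ℕ} {u v : ℝ} (h : Fct3 π σ (.uw c) u v)
    (hr : Reg π.M u v) : False := by
  obtain ⟨-, -, -, h1, -⟩ := h
  obtain ⟨h2, -⟩ := hr
  linarith

theorem nl_gap {π : Par} {σ : Bool} {a b c : ℕ} {u v : ℝ} {i : ℤ}
    (h : Fct3 π σ (.nl a b c) u v) (h1 : 2 * (i : ℝ) + 4 < u ∧ u < 2 * (i : ℝ) + 6) : False :=
  even_gap (nl_even h) h1.1 h1.2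

theorem us_us {π : Par} {σ σ' : Bool} {c c' : ℕ} {u v : ℝ} (h : Fct3 π σ (.us c) u v)
    (h' : Fct3 π σ' (.us c') u v) : c = c' := by
  have h1 := h.2.2.1
  have h2 := h'.2.2.1
  omega

theorem uw_uw {π : Par} {σ σ' : Bool} {c c' : ℕ} {u v : ℝ} (h : Fct3 π σ (.uw c) u v)
    (h' : Fct3 π σ' (.uw c') u v) : c = c' := by
  obtain ⟨a1, -, -, -, -, a2, a3, -⟩ := h
  obtain ⟨b1, -, -, -, -, b2, b3, -⟩ := h'
  have key : ∀ {i j : ℕ}, 3 ≤ i → v < 2 * (i : ℝ) + 1 → (j = 3 ∨ 2 * (j : ℝ) - 1 < v) →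
      j ≤ i := by
    intro i j hi h1 h2
    rcases h2 with h2 | h2
    · omega
    · have : (j : ℝ) < i + 1 := by linarith
      have : j < i + 1 := by exact_mod_cast this
      omega
  exact le_antisymm (key b1 b2 a3) (key a1 a2 b3)

theorem nl_nl {π : Par} {σ : Bool} {a b c a' b' c' : ℕ} {u v : ℝ}
    (h : Fct3 π σ (.nl a b c) u v) (h' : Fct3 π σ (.nl a' b' c') u v) :
    a = a' ∧ b = b' ∧ c = c' := by
  obtain ⟨f1, -, -, -, -, -, -, g1, g2, g3, g4, g5, g6⟩ := h
  obtain ⟨f1', -, -, -, -, -, -, g1', g2', g3', g4', g5', g6'⟩ := h'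
  have hc : c = c' := by omega
  subst hc
  have key : ∀ {i j : ℕ}, 0 < j → (i = 0 ∨ 2 * (i : ℝ) + 4 < v) → v < 2 * (j : ℝ) + 4 → i < j := by
    intro i j hj h1 h2
    rcases h1 with h1 | h1
    · omega
    · have : (i : ℝ) < j := by linarith
      exact_mod_cast this
  have k1 : a < b' := key (by omega) g2 g3'
  have k2 : a' < b := key (by omega) g2' g3
  have hb : b = b' := by
    rcases lt_trichotomy b b' with h | h | h
    · exact absurd g4 (g6' b k2 h)
    · exact h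
    · exact absurd g4' (g6 b' k1 h)
  have ha : a = a' := by
    rcases lt_trichotomy a a' with h | h | h
    · exact absurd (g5'.resolve_left (by omega)) (g6 a' h k2)
    · exact h
    · exact absurd (g5.resolve_left (by omega)) (g6' a h k1)
  exact ⟨ha, hb, rfl⟩

theorem same3 {π : Par} (hM : 8 ≤ π.M) {σ : Bool} {a b : Sh3} {u v : ℝ} (ha : Fct3 π σ a u v)
    (hb : Fct3 π σ b u v) (sa : a.side σ) (sb : b.side σ) :
    a = b ∨ ∃ s s' : Sh, a = .fr s ∧ b = .fr s' ∧ s.apex s' := by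
  have hL := lat π
  cases a with
  | fr s =>
    cases b with
    | fr s' =>
      rcases Pool.Agent.Helper40.DG2.same (by omega) ha.1 hb.1 with h | h
      · exact Or.inl (by rw [h])
      · exact Or.inr ⟨s, s', rfl, rfl, h⟩
    | us c => exact (fr_us_same hM ha hb).elim
    | uw c => exact (fr_uw_same hM ha hb).elim
    | nl x x' y => exact (fr_nl_same hM ha hb).elim
    | _ => exact (fr_reg hM ha.1 ha.2 hb.1).elim
  | us c =>
    cases b with
    | fr s' => exact (fr_us_same hM hb ha).elim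
    | us c' => exact Or.inl (by rw [us_us ha hb])
    | uw c' => exact (by have h1 := ha.2.2.1; have h2 := hb.2.2.1; omega : False).elim
    | nl x x' y => exact (by have h1 := ha.2.2.1; have h2 := hb.1; omega : False).elim
    | _ => exact (us_reg ha hb.1).elim
  | uw c =>
    cases b with
    | fr s' => exact (fr_uw_same hM hb ha).elim
    | us c' => exact (by have h1 := ha.2.2.1; have h2 := hb.2.2.1; omega : False).elim
    | uw c' => exact Or.inl (by rw [uw_uw ha hb])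
    | nl x x' y => exact (by have h1 := ha.2.2.2.1; have h2 := hb.2.2.1; linarith : False).elim
    | _ => exact (uw_reg ha hb.1).elim
  | nl x x' y =>
    cases b with
    | fr s' => exact (fr_nl_same hM hb ha).elim
    | us c' => exact (by have h1 := ha.1; have h2 := hb.2.2.1; omega : False).elim
    | uw c' => exact (by have h1 := ha.2.2.1; have h2 := hb.2.2.2.1; linarith : False).elim
    | nl z z' w =>
      obtain ⟨h1, h2, h3⟩ := nl_nl ha hb
      exact Or.inl (by rw [h1, h2, h3])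
    | dg p => exact (nl_gap ha (dg_u hb.2)).elim
    | tv k p => exact (nl_gap ha (tv_u hb.2)).elim
    | th k p => exact (nl_gap ha (th_v hb.2)).elim
    | ts k p => exact (nl_gap ha (ts_u hb.2)).elim
    | te k p => exact (nl_gap ha (te_u hb.2)).elim
  | dg p =>
    cases b with
    | fr s' => exact (fr_reg hM hb.1 hb.2 ha.1).elim
    | us c' => exact (us_reg hb ha.1).elim
    | uw c' => exact (uw_reg hb ha.1).elim
    | nl x x' y => exact (nl_gap hb (dg_u ha.2)).elim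
    | dg q => exact Or.inl (by rw [dg_dg hL ha.2 hb.2])
    | tv k q => exact (tv_dg hL hb.2 ha.2).elim
    | th k q => exact absurd (sa.symm.trans sb) (by decide)
    | ts k q => exact (ts_dg hL hb.2 ha.2).elim
    | te k q => exact (te_dg hL hb.2 ha.2).elim
  | tv k p =>
    cases b with
    | fr s' => exact (fr_reg hM hb.1 hb.2 ha.1).elim
    | us c' => exact (us_reg hb ha.1).elim
    | uw c' => exact (uw_reg hb ha.1).elim
    | nl x x' y => exact (nl_gap hb (tv_u ha.2)).elim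
    | dg q => exact (tv_dg hL ha.2 hb.2).elim
    | tv k' q =>
      obtain ⟨h1, h2⟩ := tv_tv hL ha.2 hb.2
      exact Or.inl (by rw [h1, h2])
    | th k' q => exact absurd (sa.symm.trans sb) (by decide)
    | ts k' q => exact (tv_ts hL ha.2 hb.2).elim
    | te k' q => exact (tv_te hL ha.2 hb.2).elim
  | th k p =>
    cases b with
    | fr s' => exact (fr_reg hM hb.1 hb.2 ha.1).elim
    | us c' => exact (us_reg hb ha.1).elim
    | uw c' => exact (uw_reg hb ha.1).elim
    | nl x x' y => exact (nl_gap hb (th_v ha.2)).elim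
    | th k' q =>
      obtain ⟨h1, h2⟩ := th_th hL ha.2 hb.2
      exact Or.inl (by rw [h1, h2])
    | _ => exact absurd (sa.symm.trans sb) (by decide)
  | ts k p =>
    cases b with
    | fr s' => exact (fr_reg hM hb.1 hb.2 ha.1).elim
    | us c' => exact (us_reg hb ha.1).elim
    | uw c' => exact (uw_reg hb ha.1).elim
    | nl x x' y => exact (nl_gap hb (ts_u ha.2)).elim
    | dg q => exact (ts_dg hL ha.2 hb.2).elim
    | tv k' q => exact (tv_ts hL hb.2 ha.2).elim
    | th k' q => exact absurd (sa.symm.trans sb) (by decide)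
    | ts k' q =>
      obtain ⟨h1, h2⟩ := ts_ts hL ha.2 hb.2
      exact Or.inl (by rw [h1, h2])
    | te k' q => exact (ts_te hL ha.2 hb.2).elim
  | te k p =>
    cases b with
    | fr s' => exact (fr_reg hM hb.1 hb.2 ha.1).elim
    | us c' => exact (us_reg hb ha.1).elim
    | uw c' => exact (uw_reg hb ha.1).elim
    | nl x x' y => exact (nl_gap hb (te_u ha.2)).elim
    | dg q => exact (te_dg hL ha.2 hb.2).elim
    | tv k' q => exact (tv_te hL hb.2 ha.2).elim
    | th k' q => exact absurd (sa.symm.trans sb) (by decide)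
    | ts k' q => exact (ts_te hL hb.2 ha.2).elim
    | te k' q =>
      obtain ⟨h1, h2⟩ := te_te hL ha.2 hb.2
      exact Or.inl (by rw [h1, h2])

theorem side_aux {σ : Bool} (h : σ = false) (h' : (!σ) = false) : False := by
  subst h
  exact absurd h' (by decide)

theorem side_aux' {σ : Bool} (h : σ = true) (h' : (!σ) = true) : False := by
  subst h
  exact absurd h' (by decide)

theorem cross3 {π : Par} (hM : 8 ≤ π.M) {σ : Bool} {a b : Sh3} {u v : ℝ} (ha : Fct3 π σ a u v)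
    (hb : Fct3 π (!σ) b v u) (sa : a.side σ) (sb : b.side (!σ)) : a.vert ∧ b.vert := by
  have hL := lat π
  cases a with
  | fr s =>
    cases b with
    | fr s' =>
      rcases Pool.Agent.Helper40.DG2.cross (by omega) ha.1 hb.1 with h | h
      · exact h
      · exact (side_aux (sa h.1) (sb h.2)).elim
    | us c => exact ⟨fr_us_cross hM ha hb, trivial⟩
    | uw c => exact ⟨fr_uw_cross hM ha hb, trivial⟩
    | nl x x' y => exact ⟨fr_nl_cross hM ha hb, trivial⟩
    | _ => exact (fr_reg hM ha.1 ha.2 hb.1.swap).elim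
  | us c =>
    cases b with
    | fr s' => exact ⟨trivial, fr_us_cross hM hb ha⟩
    | dg p => exact (us_reg ha hb.1.swap).elim
    | ts k p => exact (us_reg ha hb.1.swap).elim
    | te k p => exact (us_reg ha hb.1.swap).elim
    | _ => exact ⟨trivial, trivial⟩
  | uw c =>
    cases b with
    | fr s' => exact ⟨trivial, fr_uw_cross hM hb ha⟩
    | dg p => exact (uw_reg ha hb.1.swap).elim
    | ts k p => exact (uw_reg ha hb.1.swap).elim
    | te k p => exact (uw_reg ha hb.1.swap).elim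
    | _ => exact ⟨trivial, trivial⟩
  | nl x x' y =>
    cases b with
    | fr s' => exact ⟨trivial, fr_nl_cross hM hb ha⟩
    | dg p => exact (nl_gap ha (dg_v hb.2)).elim
    | ts k p => exact (nl_gap ha (ts_v hb.2)).elim
    | te k p => exact (nl_gap ha (te_v hb.2)).elim
    | _ => exact ⟨trivial, trivial⟩
  | dg p =>
    cases b with
    | fr s' => exact (fr_reg hM hb.1 hb.2 ha.1.swap).elim
    | us c' => exact (us_reg hb ha.1.swap).elim
    | uw c' => exact (uw_reg hb ha.1.swap).elim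
    | nl x x' y => exact (nl_gap hb (dg_v ha.2)).elim
    | th k q => exact (th_dg hL hb.2 ha.2).elim
    | _ => exact (side_aux sa sb).elim
  | tv k p =>
    cases b with
    | fr s' => exact (fr_reg hM hb.1 hb.2 ha.1.swap).elim
    | us c' => exact ⟨trivial, trivial⟩
    | uw c' => exact ⟨trivial, trivial⟩
    | nl x x' y => exact ⟨trivial, trivial⟩
    | th k q => exact ⟨trivial, trivial⟩
    | _ => exact (side_aux sa sb).elim
  | th k p =>
    cases b with
    | fr s' => exact (fr_reg hM hb.1 hb.2 ha.1.swap).elim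
    | us c' => exact ⟨trivial, trivial⟩
    | uw c' => exact ⟨trivial, trivial⟩
    | nl x x' y => exact ⟨trivial, trivial⟩
    | tv k q => exact ⟨trivial, trivial⟩
    | dg q => exact (th_dg hL ha.2 hb.2).elim
    | th k' q => exact (side_aux' sa sb).elim
    | ts k' q => exact (th_ts hL ha.2 hb.2).elim
    | te k' q => exact (th_te hL ha.2 hb.2).elim
  | ts k p =>
    cases b with
    | fr s' => exact (fr_reg hM hb.1 hb.2 ha.1.swap).elim
    | us c' => exact (us_reg hb ha.1.swap).elim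
    | uw c' => exact (uw_reg hb ha.1.swap).elim
    | nl x x' y => exact (nl_gap hb (ts_v ha.2)).elim
    | th k q => exact (th_ts hL hb.2 ha.2).elim
    | _ => exact (side_aux sa sb).elim
  | te k p =>
    cases b with
    | fr s' => exact (fr_reg hM hb.1 hb.2 ha.1.swap).elim
    | us c' => exact (us_reg hb ha.1.swap).elim
    | uw c' => exact (uw_reg hb ha.1.swap).elim
    | nl x x' y => exact (nl_gap hb (te_v ha.2)).elim
    | th k q => exact (th_te hL hb.2 ha.2).elim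
    | _ => exact (side_aux sa sb).elim

end Pool.Agent.Helper59.DG3
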