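import Pool.Agent.Helper59.DG3.Room
import Pool.Agent.Helper29.DG3.Pairs

/-!
# Threads: the positions of the vertices are distinct, and no vertex lies on an edge
-/

set_option autoImplicit false

namespace Pool.Agent.Helper59.DG3

open Pool.Agent.Helper58.DG3 Pool.Agent.Helper29.DG3 Complex
open Pool.Agent.Helper40.DG (cu cv)
open Pool.Agent.Helper58.DG3.LV (Kd)
open Pool.Agent.Helper82.DG.LV (no_par)

section kinds

variable {M : ℕ} {n s e w p q : ℝ} {x : GX} (hM : (8 : ℝ) ≤ M) (hn : 2 * M + 3 < n)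
  (hs : 2 * M + 3 < s) (he : 2 * M + 3 < e) (hw : 2 * M + 3 < w)

include hM hn hs he hw

theorem kd_reg (h : Kd M n s e w x p q) (hf : x.fr) (hr : Reg M p q) : False := by
  obtain ⟨r1, r2, r3, r4, r5⟩ := hr
  cases h with
  | d c r hc hr' hcr =>
    rcases hcr with rfl | rfl
    · rw [Nat.cast_zero] at r1; linarith
    · rw [Nat.cast_zero] at r2; linarith
  | ft x p q hx => exact hx hf
  | _ => linarith

theorem kd_nl (h : Kd M n s e w x p q) (hf : x.fr) {c : ℕ} (h0 : p = 2 * (c : ℝ) + 4)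
    (h1 : 6 ≤ p) (h2 : 2 < q) (h3 : p < 2 * M - 1) (h4 : q < 2 * M - 1) : False := by
  cases h with
  | d c' r hc hr' hcr =>
    rcases hcr with rfl | rfl
    · rw [Nat.cast_zero] at h1; linarith
    · rw [Nat.cast_zero] at h2; linarith
  | ft x p q hx => exact hx hf
  | usf c' hc hc' => exact no_par (a := c') (b := c + 2) (by push_cast; linarith)
  | _ => linarith

end kinds

/-- where the vertex number `t` of a thread is -/
inductive TC (π : Par) (k i j : ℕ) (z : ℂ) : ℕ → Prop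
  | first : V0 (InL π.D) k ((i : ℤ), (j : ℤ)) z.re z.im → TC π k i j z 0
  | odd (m : ℕ) : m < π.l → Vm π.R (InL π.D) k (π.pp k i j m) (π.qq k i j m) z.re z.im →
      TC π k i j z (2 * m + 1)
  | even (m : ℕ) : m < π.l → Vm π.R (InL π.D) k (π.pp k i j (m + 1)) (π.qq k i j m) z.re z.im →
      TC π k i j z (2 * m + 2)
  | last : Ve (InL π.D) k (π.pp k i j π.l) z.re z.im → TC π k i j z (2 * π.l + 1)

variable {π : Par}

theorem tc {k i j t : ℕ} (h : (GN.T k i j t).ok π) : TC π k i j (lay π (.T k i j t)) t := by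
  obtain ⟨h, ht⟩ : π.St k i j ∧ t ≤ 2 * π.l + 1 := h
  rcases t_cases ht with rfl | ⟨m, hm, rfl⟩ | ⟨m, hm, rfl⟩ | rfl
  · exact .first (v0_zero h)
  · exact .odd m hm (vm_odd h hm)
  · exact .even m hm (vm_even h hm)
  · exact .last (ve_last h)

theorem TC.cell {k i j t : ℕ} {z : ℂ} (h : TC π k i j z t) : ∃ a b : ℤ,
    (2 * (a : ℝ) + 4 < z.re ∧ z.re < 2 * (a : ℝ) + 6) ∧
      (2 * (b : ℝ) + 4 < z.im ∧ z.im < 2 * (b : ℝ) + 6) := by
  cases h with
  | first h => exact ⟨_, _, v0_u h, v0_v h⟩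
  | odd m hm h => exact ⟨_, _, vm_u h, vm_v h⟩
  | even m hm h => exact ⟨_, _, vm_u h, vm_v h⟩
  | last h => exact ⟨_, _, ve_u h, ve_v h⟩

theorem t_inj {k i j t k' i' j' t' : ℕ} (h : (GN.T k i j t).ok π) (h' : (GN.T k' i' j' t').ok π)
    (e : lay π (.T k i j t) = lay π (.T k' i' j' t')) : GN.T k i j t = GN.T k' i' j' t' := by
  have hL := lat π
  have c := tc h
  have c' := tc h'
  rw [← e] at c'
  obtain ⟨hs, -⟩ : π.St k i j ∧ t ≤ 2 * π.l + 1 := h
  obtain ⟨hs', -⟩ : π.St k' i' j' ∧ t' ≤ 2 * π.l + 1 := h'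
  cases c with
  | first h1 =>
    cases c' with
    | first h2 =>
      obtain ⟨rfl, h3⟩ := v0_v0 hL h1 h2
      rw [Prod.mk.injEq] at h3
      obtain ⟨h3, h4⟩ := h3
      rw [Nat.cast_injective h3, Nat.cast_injective h4]
    | odd m hm h2 => exact (v0_vm hL h1 h2).elim
    | even m hm h2 => exact (v0_vm hL h1 h2).elim
    | last h2 => exact (v0_ve hL h1 h2).elim
  | odd m hm h1 =>
    cases c' with
    | first h2 => exact (v0_vm hL h2 h1).elim
    | odd m' hm' h2 =>
      obtain ⟨rfl, h3, h4⟩ := vm_vm hL h1 h2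
      obtain ⟨rfl, rfl, rfl⟩ := pp_inj hs hs' hm.le hm'.le h3
      rfl
    | even m' hm' h2 =>
      obtain ⟨rfl, h3, h4⟩ := vm_vm hL h1 h2
      obtain ⟨-, -, h5⟩ := pp_inj hs hs' hm.le hm' h3
      obtain ⟨-, -, h6⟩ := qq_inj hs hs' hm.le hm'.le h4
      omega
    | last h2 => exact (ve_vm hL h2 h1).elim
  | even m hm h1 =>
    cases c' with
    | first h2 => exact (v0_vm hL h2 h1).elim
    | odd m' hm' h2 =>
      obtain ⟨rfl, h3, h4⟩ := vm_vm hL h1 h2
      obtain ⟨-, -, h5⟩ := pp_inj hs hs' hm hm'.le h3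
      obtain ⟨-, -, h6⟩ := qq_inj hs hs' hm.le hm'.le h4
      omega
    | even m' hm' h2 =>
      obtain ⟨rfl, h3, h4⟩ := vm_vm hL h1 h2
      obtain ⟨rfl, rfl, rfl⟩ := qq_inj hs hs' hm.le hm'.le h4
      rfl
    | last h2 => exact (ve_vm hL h2 h1).elim
  | last h1 =>
    cases c' with
    | first h2 => exact (v0_ve hL h2 h1).elim
    | odd m' hm' h2 => exact (ve_vm hL h1 h2).elim
    | even m' hm' h2 => exact (ve_vm hL h1 h2).elim
    | last h2 =>
      obtain ⟨rfl, h3⟩ := ve_ve hL h1 h2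
      obtain ⟨rfl, rfl, -⟩ := pp_inj hs hs' le_rfl le_rfl h3
      rfl

theorem f_t {k i j t a b : ℕ} (h : (GN.T k i j t).ok π)
    (e : lay π (.F a b) = lay π (.T k i j t)) : False := by
  obtain ⟨c, -, ⟨h1, h2⟩, -⟩ := (tc h).cell
  have e1 : 2 * (a : ℝ) + 4 = (lay π (.T k i j t)).re := congrArg Complex.re e
  exact even_gap (a := a) (b := c) (t := (lay π (.T k i j t)).re) (by rw [← e1]; push_cast; rfl)
    h1 h2

theorem nf_cases (x : GX) (h : ¬ x.fr) : (∃ i j, x = .v (.F i j)) ∨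
    ∃ k i j t, x = .v (.T k i j t) := by
  cases x with
  | X σ => exact absurd trivial h
  | Y σ => exact absurd trivial h
  | v g =>
    cases g with
    | F i j => exact Or.inl ⟨i, j, rfl⟩
    | T k i j t => exact Or.inr ⟨k, i, j, t, rfl⟩
    | _ => exact absurd trivial h

theorem swap_fr {x : GX} (h : x.fr) : x.swap.fr := by
  cases x with
  | X σ => trivial
  | Y σ => trivial
  | v g => cases g <;> exact h

section main

variable {n s e w : ℝ} (hM : 8 ≤ π.M) (hn : 2 * π.M + 3 < n) (hs : 2 * π.M + 3 < s)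
  (he : 2 * π.M + 3 < e) (hw : 2 * π.M + 3 < w)

include hM hn hs he hw

theorem vtx_nl {σ : Bool} {a b c : ℕ} (hk : (GE.nl σ a b c).valid π) {x : GX} (hx : x.ok π)
    (hz : layX π n s e w x ∈ openSegment ℝ (lay π (.lo σ a c)) (lay π (.F' σ b c))) : False := by
  have hM' : (8 : ℝ) ≤ π.M := by exact_mod_cast hM
  have f := nl_link hk hz
  by_cases hf : x.fr
  · have k1 := LV.kd (n := n) (s := s) (e := e) (w := w) (treg π) hM x hx
    have e0 := nl_even f
    obtain ⟨-, -, g1, g2, g3, g4, -⟩ := f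
    cases σ
    · exact kd_nl hM' hn hs he hw k1 hf (c := c) (by rw [Int.cast_natCast] at e0; exact e0)
        g1 g2 g3 g4
    · exact kd_nl hM' he hw hn hs k1.swap (swap_fr hf) (c := c)
        (by rw [Int.cast_natCast] at e0; exact e0) g1 g2 g3 g4
  · rcases nf_cases x hf with ⟨i, j, rfl⟩ | ⟨k, i, j, t, rfl⟩
    · have e0 := nl_even f
      obtain ⟨-, -, g1, g2, g3, g4, g5, g6, g7, g8, g9, g10, g11⟩ := f
      obtain ⟨hi, hj, -, hS⟩ : 1 ≤ i ∧ 1 ≤ j ∧ i + j + 3 ≤ π.M ∧ InS π.D (i, j) := hx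
      have key : ∀ {i j : ℕ}, ((a = 0 ∨ 2 * (a : ℝ) + 4 < 2 * (i : ℝ) + 4)) →
          2 * (i : ℝ) + 4 < 2 * (b : ℝ) + 4 → 2 * (j : ℝ) + 4 = 2 * ((c : ℤ) : ℝ) + 4 →
          1 ≤ i → j = c ∧ a < i ∧ i < b := by
        intro i j h1 h2 h3 h4
        have h3' : (j : ℝ) = c := by rw [Int.cast_natCast] at h3; linarith
        have h2' : (i : ℝ) < b := by linarith
        refine ⟨by exact_mod_cast h3', ?_, by exact_mod_cast h2'⟩
        rcases h1 with h1 | h1
        · omega
        · have : (a : ℝ) < i := by linarith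
          exact_mod_cast this
      cases σ
      · obtain ⟨h1, h2, h3⟩ := key (i := j) (j := i) g7 g8 e0 hj
        subst h1
        exact g11 j h2 h3 hS
      · obtain ⟨h1, h2, h3⟩ := key (i := i) (j := j) g7 g8 e0 hi
        subst h1
        exact g11 i h2 h3 hS
    · obtain ⟨a', b', h1, h2⟩ := (tc (π := π) (k := k) (i := i) (j := j) (t := t) hx).cell
      cases σ
      · exact nl_gap f h1
      · exact nl_gap f h2

/-- a point of the region -/
theorem vtx_core {x : GX} (hx : x.ok π) (hr : Reg π.M (layX π n s e w x).re (layX π n s e w x).im)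
    (hF : ∀ p, Vf p (layX π n s e w x).re (layX π n s e w x).im → False)
    (h0 : ∀ k p, V0 (InL π.D) k p (layX π n s e w x).re (layX π n s e w x).im → False)
    (hl : ∀ k p, Ve (InL π.D) k p (layX π n s e w x).re (layX π n s e w x).im → False)
    (h1 : ∀ k i j m, π.St k i j → m < π.l → x = .v (.T k i j (2 * m + 1)) →
      Vm π.R (InL π.D) k (π.pp k i j m) (π.qq k i j m) (layX π n s e w x).re
        (layX π n s e w x).im → False)
    (h2 : ∀ k i j m, π.St k i j → m < π.l → x = .v (.T k i j (2 * m + 2)) →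
      Vm π.R (InL π.D) k (π.pp k i j (m + 1)) (π.qq k i j m) (layX π n s e w x).re
        (layX π n s e w x).im → False) : False := by
  have hM' : (8 : ℝ) ≤ π.M := by exact_mod_cast hM
  by_cases hf : x.fr
  · exact kd_reg hM' hn hs he hw (LV.kd (treg π) hM x hx) hf hr
  · rcases nf_cases x hf with ⟨i, j, rfl⟩ | ⟨k, i, j, t, rfl⟩
    · refine hF ((i : ℤ), (j : ℤ)) ⟨?_, ?_⟩
      · simp [layX, lay]
      · simp [layX, lay]
    · obtain ⟨hst, ht⟩ : π.St k i j ∧ t ≤ 2 * π.l + 1 := hx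
      rcases t_cases ht with rfl | ⟨m, hm, rfl⟩ | ⟨m, hm, rfl⟩ | rfl
      · exact h0 _ _ (v0_zero hst)
      · exact h1 k i j m hst hm rfl (vm_odd hst hm)
      · exact h2 k i j m hst hm rfl (vm_even hst hm)
      · exact hl _ _ (ve_last hst)

end main

end Pool.Agent.Helper59.DG3

namespace Pool.Agent.Helper58.DG3

open Pool.Agent.Helper59.DG3 Pool.Agent.Helper29.DG3 Complex

variable {π : Par} {n s e w : ℝ}

theorem layout_inj (hM : 8 ≤ π.M) (hn : 2 * π.M + 3 < n) (hs : 2 * π.M + 3 < s)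
    (he : 2 * π.M + 3 < e) (hw : 2 * π.M + 3 < w) : ∀ x y : GX, x.ok π → y.ok π →
    layX π n s e w x = layX π n s e w y → x = y := by
  intro x y hx hy h
  by_cases hfx : x.fr
  · exact inj_frame hM (treg π) hn hs he hw x y hx hy hfx h
  by_cases hfy : y.fr
  · exact (inj_frame hM (treg π) hn hs he hw y x hy hx hfy h.symm).symm
  rcases nf_cases x hfx with ⟨i, j, rfl⟩ | ⟨k, i, j, t, rfl⟩
  · rcases nf_cases y hfy with ⟨i', j', rfl⟩ | ⟨k', i', j', t', rfl⟩
    · have e1 : 2 * (i : ℝ) + 4 = 2 * (i' : ℝ) + 4 := congrArg Complex.re h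
      have e2 : 2 * (j : ℝ) + 4 = 2 * (j' : ℝ) + 4 := congrArg Complex.im h
      have e3 : (i : ℝ) = i' := by linarith
      have e4 : (j : ℝ) = j' := by linarith
      rw [Nat.cast_injective e3, Nat.cast_injective e4]
    · exact (f_t hy h).elim
  · rcases nf_cases y hfy with ⟨i', j', rfl⟩ | ⟨k', i', j', t', rfl⟩
    · exact (f_t hx h.symm).elim
    · rw [t_inj hx hy h]

theorem layout_vtx (hM : 8 ≤ π.M) (hn : 2 * π.M + 3 < n) (hs : 2 * π.M + 3 < s)
    (he : 2 * π.M + 3 < e) (hw : 2 * π.M + 3 < w) : ∀ k : GF, k.valid π → ∀ x : GX, x.ok π →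
    x ≠ (k.ends π).1 → x ≠ (k.ends π).2 →
    layX π n s e w x ∉ openSegment ℝ (layX π n s e w (k.ends π).1)
      (layX π n s e w (k.ends π).2) := by
  intro k hk x hx hx1 hx2 hz
  have hL := lat π
  by_cases hf : k.fr
  · exact vtx_frame hM (treg π) hn hs he hw k hk hf x hx hz
  cases k with
  | ns => exact hf trivial
  | ew => exact hf trivial
  | g c =>
    cases c with
    | nl σ a b c => exact vtx_nl hM hn hs he hw hk hx hz
    | dg i j =>
      obtain ⟨h1, h2, h3, h4⟩ := hk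
      have d := dg_link (π := π) h4 hz
      exact vtx_core hM hn hs he hw hx (dg_reg h1 h2 h3 d) (fun p h => vf_dg hL h d)
        (fun k p h => v0_dg hL h d) (fun k p h => ve_dg hL h d)
        (fun k i j m _ _ _ h => vm_dg hL h d) (fun k i j m _ _ _ h => vm_dg hL h d)
    | ts k i j =>
      have hk' : π.St k i j := hk
      have d := ts_link hk' hz
      exact vtx_core hM hn hs he hw hx (ts_reg (room_xy hk') d) (fun p h => vf_ts hL h d)
        (fun k p h => v0_ts hL h d) (fun k p h => ve_ts hL h d)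
        (fun k i j m _ _ _ h => vm_ts hL h d) (fun k i j m _ _ _ h => vm_ts hL h d)
    | te k i j =>
      have hk' : π.St k i j := hk
      have d := te_link hk' hz
      exact vtx_core hM hn hs he hw hx (te_reg (room_pp hk' le_rfl) d) (fun p h => vf_te hL h d)
        (fun k p h => v0_te hL h d) (fun k p h => ve_te hL h d)
        (fun k i j m _ _ _ h => vm_te hL h d) (fun k i j m _ _ _ h => vm_te hL h d)
    | tt k i j t =>
      obtain ⟨hk', ht⟩ : π.St k i j ∧ t ≤ 2 * π.l := hk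
      rcases Nat.even_or_odd' t with ⟨m, rfl | rfl⟩
      · have hm : m ≤ π.l := by omega
        have d := tv_link hk' hm hz
        refine vtx_core hM hn hs he hw hx (tv_reg (room_pp hk' hm) d) (fun p h => vf_tv hL h d)
          (fun k p h => v0_tv hL h d) (fun k p h => ve_tv hL h d) ?_ ?_
        · intro k' i' j' m' hs' hm' hxe h
          obtain ⟨rfl, h5⟩ := vm_tv hL h d
          obtain ⟨rfl, rfl, rfl⟩ := pp_inj hs' hk' hm'.le hm h5
          exact hx2 hxe
        · intro k' i' j' m' hs' hm' hxe h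
          obtain ⟨rfl, h5⟩ := vm_tv hL h d
          obtain ⟨rfl, rfl, rfl⟩ := pp_inj hs' hk' hm' hm h5
          exact hx1 hxe
      · have hm : m < π.l := by omega
        have d := th_link hk' hm hz
        refine vtx_core hM hn hs he hw hx (th_reg (room_qq hk' hm.le) d)
          (fun p h => vf_th hL h d)
          (fun k p h => v0_th hL h d) (fun k p h => ve_th hL h d) ?_ ?_
        · intro k' i' j' m' hs' hm' hxe h
          obtain ⟨rfl, h5⟩ := vm_th hL h d
          obtain ⟨rfl, rfl, rfl⟩ := qq_inj hs' hk' hm'.le hm.le h5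
          exact hx1 hxe
        · intro k' i' j' m' hs' hm' hxe h
          obtain ⟨rfl, h5⟩ := vm_th hL h d
          obtain ⟨rfl, rfl, rfl⟩ := qq_inj hs' hk' hm'.le hm.le h5
          exact hx2 hxe
    | _ => exact hf trivial

end Pool.Agent.Helper58.DG3
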